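import Mathlib

set_option autoImplicit false

/-!
Tree automorphisms of the tree of words over `K⁴` acting letter by letter through elementary
affine moves whose coefficient depends on the preceding letters.
-/

namespace Pool.Agent.Helper278.TB

/-- letters -/
abbrev B (K : Type) : Type := Fin 4 → K

section defs

variable {K : Type} [Field K]

/-- a coordinate, or the constant `1` -/
def cf (j : Option (Fin 4)) (v : B K) : K :=
  match j with
  | none => 1
  | some k => v k

/-- elementary move on letters: add `t` times the coordinate `j` (or `t` itself) to coordinate `i` -/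
def el (i : Fin 4) (j : Option (Fin 4)) (t : K) (v : B K) : B K :=
  if j = some i then v else Function.update v i (v i + t * cf j v)

/-- apply to each letter the elementary move `(i, j)` with coefficient `c` of the history -/
def T (i : Fin 4) (j : Option (Fin 4)) : (List (B K) → K) → List (B K) → List (B K)
  | _, [] => []
  | c, v :: w => el i j (c []) v :: T i j (fun h => c (v :: h)) w

/-- the inverse of `T` -/
def Ti (i : Fin 4) (j : Option (Fin 4)) : (List (B K) → K) → List (B K) → List (B K)
  | _, [] => []
  | c, v :: w => el i j (-(c [])) v :: Ti i j (fun h => c (el i j (-(c [])) v :: h)) w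

theorem el_neg_el (i : Fin 4) (j : Option (Fin 4)) (t : K) (v : B K) :
    el i j (-t) (el i j t v) = v := by
  unfold el
  by_cases h : j = some i
  · simp [h]
  · simp only [h, if_false]
    have hc : cf j (Function.update v i (v i + t * cf j v)) = cf j v := by
      cases j with
      | none => rfl
      | some k =>
        have hk : k ≠ i := fun e => h (by rw [e])
        simp [cf, Function.update_of_ne hk]
    rw [hc]
    simp

theorem el_el_neg (i : Fin 4) (j : Option (Fin 4)) (t : K) (v : B K) :
    el i j t (el i j (-t) v) = v := by
  have := el_neg_el i j (-t) v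
  rwa [neg_neg] at this

theorem Ti_T (i : Fin 4) (j : Option (Fin 4)) (c : List (B K) → K) (w : List (B K)) :
    Ti i j c (T i j c w) = w := by
  induction w generalizing c with
  | nil => rfl
  | cons v w ih => simp only [T, Ti, el_neg_el, ih]

theorem T_Ti (i : Fin 4) (j : Option (Fin 4)) (c : List (B K) → K) (w : List (B K)) :
    T i j c (Ti i j c w) = w := by
  induction w generalizing c with
  | nil => rfl
  | cons v w ih => simp only [T, Ti, el_el_neg, ih]

/-- `T` as a permutation of the words -/
def TP (i : Fin 4) (j : Option (Fin 4)) (c : List (B K) → K) : Equiv.Perm (List (B K)) where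
  toFun := T i j c
  invFun := Ti i j c
  left_inv := Ti_T i j c
  right_inv := T_Ti i j c

/-- the constant function `1` -/
def one : List (B K) → K := fun _ => 1

/-- the indicator of the empty history -/
def rt : List (B K) → K
  | [] => 1
  | _ :: _ => 0

/-- the sum of the coordinates `k` of the letters -/
def sm (k : Fin 4) : List (B K) → K
  | [] => 0
  | v :: h => v k + sm k h

/-- the coordinate `k` of the last letter -/
def la (k : Fin 4) : List (B K) → K
  | [] => 0
  | [v] => v k
  | _ :: v :: h => la k (v :: h)

/-- the coordinate `k` of the first letter -/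
def fs (k : Fin 4) : List (B K) → K
  | [] => 0
  | v :: _ => v k

/-- the coordinate `k` of the letter of a word with one letter -/
def ol (k : Fin 4) : List (B K) → K
  | [] => 0
  | [v] => v k
  | _ :: _ :: _ => 0

/-- the four coefficient functions -/
def lf : Fin 4 → List (B K) → K := ![one, rt, sm 3, la 3]

/-- the fourteen lines -/
def data : Fin 14 → Fin 4 × Option (Fin 4) × Fin 4 :=
  ![(0, some 1, 0), (0, some 1, 1), (0, some 1, 2), (0, some 1, 3),
    (1, some 2, 0), (1, some 2, 1), (2, some 0, 0), (2, some 0, 1),
    (0, some 3, 0), (0, some 3, 1), (3, some 2, 0), (3, some 2, 1),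
    (0, none, 0), (0, none, 1)]

/-- the lines -/
def ln (n : Fin 14) (t : K) : Equiv.Perm (List (B K)) :=
  TP (data n).1 (data n).2.1 (fun h => t * lf (data n).2.2 h)

variable (K) in
/-- the group -/
def G : Subgroup (Equiv.Perm (List (B K))) := Subgroup.closure {g | ∃ n t, g = ln n t}

/-- `c` does not depend on the coordinate `k` of the letters -/
def Indep (k : Fin 4) (c : List (B K) → K) : Prop :=
  ∀ h h' : List (B K), List.Forall₂ (fun v v' : B K => ∀ m, m ≠ k → v m = v' m) h h' → c h = c h'

/-- two lines form a Heisenberg pair -/
def HP {K : Type} [Field K] {X : Type*} [Group X] (u u' : K → X) : Prop :=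
  ∃ z : K → X, (∀ a b, z (a + b) = z a * z b) ∧
    (∀ a b, u a * u' b = u' b * (u a * z (a * b))) ∧
    (∀ a b, z a * u b = u b * z a) ∧ (∀ a b, z a * u' b = u' b * z a)

/-- apply `φ v` to the rest of the word, `v` the first letter -/
def lamF (φ : B K → Equiv.Perm (List (B K))) : List (B K) → List (B K)
  | [] => []
  | v :: w => v :: φ v w

/-- the tree automorphism with trivial action on the first letter and sections `φ v` -/
def Lam (φ : B K → Equiv.Perm (List (B K))) : Equiv.Perm (List (B K)) where
  toFun := lamF φ
  invFun := lamF (fun v => (φ v)⁻¹)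
  left_inv w := by cases w <;> simp [lamF]
  right_inv w := by cases w <;> simp [lamF]

/-- act on the first letter -/
def rhoF (σ : Equiv.Perm (B K)) : List (B K) → List (B K)
  | [] => []
  | v :: w => σ v :: w

/-- rooted automorphisms -/
def rho (σ : Equiv.Perm (B K)) : Equiv.Perm (List (B K)) where
  toFun := rhoF σ
  invFun := rhoF σ⁻¹
  left_inv w := by cases w <;> simp [rhoF]
  right_inv w := by cases w <;> simp [rhoF]

/-- `el` as a permutation of the letters -/
def elP (i : Fin 4) (j : Option (Fin 4)) (t : K) : Equiv.Perm (B K) where
  toFun := el i j t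
  invFun := el i j (-t)
  left_inv := el_neg_el i j t
  right_inv := el_el_neg i j t

/-- move of the first letter only -/
def R (i : Fin 4) (j : Option (Fin 4)) (t : K) : Equiv.Perm (List (B K)) :=
  TP i j (fun h => t * rt h)

/-- move of all letters -/
def E (i : Fin 4) (j : Option (Fin 4)) (t : K) : Equiv.Perm (List (B K)) :=
  TP i j (fun _ => t)

/-- `E` below each vertex of the first level, with coefficient `f` -/
def EF (i : Fin 4) (j : Option (Fin 4)) (f : B K → K) : Equiv.Perm (List (B K)) :=
  Lam (fun v => E i j (f v))

/-- `R` below each vertex of the first level, with coefficient `f` -/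
def RF (i : Fin 4) (j : Option (Fin 4)) (f : B K → K) : Equiv.Perm (List (B K)) :=
  Lam (fun v => R i j (f v))

open Classical in
/-- `g` below the vertex `b` of the first level -/
noncomputable def at' (b : B K) (g : Equiv.Perm (List (B K))) : Equiv.Perm (List (B K)) :=
  Lam (fun v => if v = b then g else 1)

variable (K) in
/-- the normal closure of the rooted lines -/
def Kg : Subgroup (Equiv.Perm (List (B K))) :=
  Subgroup.closure {x | ∃ g ∈ G K, ∃ n : Fin 14, (data n).2.2 = 1 ∧ ∃ t, x = g * ln n t * g⁻¹}

end defs

end Pool.Agent.Helper278.TB
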