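import Pool.Agent.Helper278.TB.Defs
import Pool.Agent.Helper455.KZ.Gap

set_option autoImplicit false

/-!
Property (T) for groups generated by lines which pairwise form Heisenberg pairs. Uses the
spectral gap library of helper455.
-/

open scoped InnerProductSpace

namespace Pool.Agent.Helper278.TB

open Pool.Agent.Helper455.KZ

section KT

variable {Γ : Type} [Group Γ] {K : Type} [Field K] [Fintype K]
variable {H : Type} [NormedAddCommGroup H] [InnerProductSpace ℂ H] [CompleteSpace H]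

/-- the operators of a line -/
noncomputable def uop (π : Γ →* unitary (H →L[ℂ] H)) (u : K → Γ) : K → (H →L[ℂ] H) :=
  fun t => (π (u t) : H →L[ℂ] H)

omit [Fintype K] in
theorem line_zero (u : K → Γ) (hadd : ∀ a b, u (a + b) = u a * u b) : u 0 = 1 := by
  have h := hadd 0 0
  rw [add_zero] at h
  exact left_eq_mul.mp h

omit [Fintype K] in
theorem uop_rep (π : Γ →* unitary (H →L[ℂ] H)) (u : K → Γ)
    (hadd : ∀ a b, u (a + b) = u a * u b) : URep (uop π u) where
  zero v := by simp [uop, line_zero u hadd]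
  add a b v := by simp [uop, hadd, map_mul]
  inner a v w := Unitary.inner_map_map _ _ _

omit [Fintype K] in
theorem uop_mul (π : Γ →* unitary (H →L[ℂ] H)) {g h : Γ} (x : H) :
    (π (g * h) : H →L[ℂ] H) x = (π g : H →L[ℂ] H) ((π h : H →L[ℂ] H) x) := by
  simp [map_mul]

theorem pair_est (hK : 256 ≤ Fintype.card K) (π : Γ →* unitary (H →L[ℂ] H)) (u u' : K → Γ)
    (hu : ∀ a b, u (a + b) = u a * u b) (hu' : ∀ a b, u' (a + b) = u' a * u' b)
    (hp : HP u u') (v : H) :
    0 ≤ 2 * (⟪co (avg (uop π u)) v, co (avg (uop π u')) v⟫_ℂ).re +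
      (1 / 16) * (‖co (avg (uop π u)) v‖ ^ 2 + ‖co (avg (uop π u')) v‖ ^ 2) := by
  obtain ⟨z, hz, hrel, h1, h2⟩ := hp
  refine heis_pair (uop_rep π u hu) (uop_rep π u' hu') (uop_rep π z hz) ?_ ?_ ?_
    (1 / 16) (by norm_num) (by norm_num) ?_ v
  · intro a b x
    show (π (u a) : H →L[ℂ] H) ((π (u' b) : H →L[ℂ] H) x) = (π (u' b) : H →L[ℂ] H)
      ((π (u a) : H →L[ℂ] H) ((π (z (a * b)) : H →L[ℂ] H) x))
    rw [← uop_mul, ← uop_mul, ← uop_mul, hrel, mul_assoc]
  · intro a b x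
    show (π (z a) : H →L[ℂ] H) ((π (u b) : H →L[ℂ] H) x) = (π (u b) : H →L[ℂ] H)
      ((π (z a) : H →L[ℂ] H) x)
    rw [← uop_mul, ← uop_mul, h1]
  · intro a b x
    show (π (z a) : H →L[ℂ] H) ((π (u' b) : H →L[ℂ] H) x) = (π (u' b) : H →L[ℂ] H)
      ((π (z a) : H →L[ℂ] H) x)
    rw [← uop_mul, ← uop_mul, h2]
  · have : (256 : ℝ) ≤ Fintype.card K := by exact_mod_cast hK
    calc ((Fintype.card K : ℝ))⁻¹ ≤ (256 : ℝ)⁻¹ := inv_anti₀ (by norm_num) this
      _ = (1 / 16 : ℝ) ^ 2 := by norm_num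

end KT

/-- Property (T) for groups generated by at most 15 lines, any two of which form a Heisenberg
pair. -/
theorem propT_lines {Γ : Type} [Group Γ] {K : Type} [Field K] [Fintype K]
    (hK : 256 ≤ Fintype.card K) {n : ℕ} (hn0 : 0 < n) (hn : n ≤ 15) (u : Fin n → K → Γ)
    (hadd : ∀ i a b, u i (a + b) = u i a * u i b)
    (pair : ∀ i j, i ≠ j → HP (u i) (u j) ∨ HP (u j) (u i))
    (gen : Subgroup.closure {g | ∃ i t, g = u i t} = ⊤) :
    ∃ S : Finset Γ, ∃ ε : ℝ, 0 < ε ∧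
      ∀ (H : Type) [NormedAddCommGroup H] [InnerProductSpace ℂ H] [CompleteSpace H]
        (ρ : Γ →* unitary (H →L[ℂ] H)),
        (∃ x : H, ‖x‖ = 1 ∧ ∀ s ∈ S, ‖(ρ s : H →L[ℂ] H) x - x‖ < ε) →
          ∃ x : H, x ≠ 0 ∧ ∀ g : Γ, (ρ g : H →L[ℂ] H) x = x := by
  classical
  have hcard : Fintype.card (Fin n) = n := Fintype.card_fin n
  have hn1 : (1 : ℝ) ≤ n := by exact_mod_cast hn0
  have hn2 : (n : ℝ) ≤ 15 := by exact_mod_cast hn
  have hc : (0 : ℝ) < 1 - ((n : ℝ) - 1) * (1 / 16) := by linarith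
  have hc1 : 1 - ((n : ℝ) - 1) * (1 / 16) ≤ 1 := by linarith
  refine ⟨(Finset.univ : Finset (Fin n × K)).image (fun q => u q.1 q.2),
    thr n (1 - ((n : ℝ) - 1) * (1 / 16)), thr_pos _ _ hn1 hc, ?_⟩
  intro H _ _ _ π ⟨v, hv, hsm⟩
  let Q : Fin n → H → H := fun i => co (avg (uop π (u i)))
  have hrep : ∀ i, URep (uop π (u i)) := fun i => uop_rep π _ (hadd i)
  have hQ : ∀ i, Proj (Q i) := fun i => (hrep i).avg_proj.co
  have hpair : ∀ i j, i ≠ j → ∀ v, 0 ≤ 2 * (⟪Q i v, Q j v⟫_ℂ).re +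
      (1 / 16) * (‖Q i v‖ ^ 2 + ‖Q j v‖ ^ 2) := by
    intro i j hij v
    rcases pair i j hij with h | h
    · exact pair_est hK π (u i) (u j) (hadd i) (hadd j) h v
    · have := pair_est hK π (u j) (u i) (hadd j) (hadd i) h v
      have e : (⟪Q i v, Q j v⟫_ℂ).re = (⟪Q j v, Q i v⟫_ℂ).re := by
        rw [← inner_conj_symm, Complex.conj_re]
      rw [e, add_comm (‖Q i v‖ ^ 2)]
      exact this
  have hDE : ∀ v, (1 - ((n : ℝ) - 1) * (1 / 16)) * EE Q v ≤ ‖DD Q v‖ ^ 2 := by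
    intro v
    have := DD_lower Q (1 / 16) hpair v
    rwa [hcard] at this
  have hv' : ∀ i, ‖Q i v‖ ≤ thr (Fintype.card (Fin n) : ℝ) (1 - ((n : ℝ) - 1) * (1 / 16)) := by
    intro i
    rw [hcard]
    refine co_avg_small v _ fun a => ?_
    exact (hsm (u i a) (Finset.mem_image.mpr ⟨(i, a), Finset.mem_univ _, rfl⟩)).le
  obtain ⟨w, hw, hwi⟩ := exists_invariant (by rw [hcard]; exact hn0) Q hQ _ hc hc1 hDE v hv hv'
  refine ⟨w, hw, ?_⟩
  let St : Subgroup Γ :=
    { carrier := {g | (π g : H →L[ℂ] H) w = w}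
      one_mem' := by simp
      mul_mem' := by
        intro a b ha hb
        show (π (a * b) : H →L[ℂ] H) w = w
        have ha' : (π a : H →L[ℂ] H) w = w := ha
        have hb' : (π b : H →L[ℂ] H) w = w := hb
        rw [uop_mul, hb', ha']
      inv_mem' := by
        intro a ha
        show (π a⁻¹ : H →L[ℂ] H) w = w
        have ha' : (π a : H →L[ℂ] H) w = w := ha
        have h1 : (π a⁻¹ : H →L[ℂ] H) ((π a : H →L[ℂ] H) w) = w := by
          rw [← uop_mul, inv_mul_cancel]; simp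
        rwa [ha'] at h1 }
  have hle : Subgroup.closure {g | ∃ i t, g = u i t} ≤ St := by
    rw [Subgroup.closure_le]
    rintro _ ⟨i, t, rfl⟩
    show (π (u i t) : H →L[ℂ] H) w = w
    have h1 : avg (uop π (u i)) w = w := by
      have : w - avg (uop π (u i)) w = 0 := hwi i
      rw [sub_eq_zero] at this
      exact this.symm
    have h3 := (hrep i).fix_avg t w
    rw [h1] at h3
    exact h3
  intro g
  rw [gen] at hle
  exact hle (Subgroup.mem_top g)

/-- the lines of the group `G` -/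
theorem propT_G {K : Type} [Field K] [Fintype K] (hK : 256 ≤ Fintype.card K)
    (hadd : ∀ (n : Fin 14) (s t : K), ln n (s + t) = ln n s * ln n t)
    (pair : ∀ (m n : Fin 14), m ≠ n → HP (ln m : K → Equiv.Perm (List (B K))) (ln n) ∨
      HP (ln n : K → Equiv.Perm (List (B K))) (ln m)) :
    ∃ S : Finset (G K), ∃ ε : ℝ, 0 < ε ∧
      ∀ (H : Type) [NormedAddCommGroup H] [InnerProductSpace ℂ H] [CompleteSpace H]
        (ρ : G K →* unitary (H →L[ℂ] H)),
        (∃ x : H, ‖x‖ = 1 ∧ ∀ s ∈ S, ‖(ρ s : H →L[ℂ] H) x - x‖ < ε) →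
          ∃ x : H, x ≠ 0 ∧ ∀ g : G K, (ρ g : H →L[ℂ] H) x = x := by
  have hmem : ∀ (n : Fin 14) (t : K), ln n t ∈ G K := fun n t =>
    Subgroup.subset_closure ⟨n, t, rfl⟩
  let u : Fin 14 → K → G K := fun n t => ⟨ln n t, hmem n t⟩
  refine propT_lines hK (n := 14) (by norm_num) (by norm_num) u ?_ ?_ ?_
  · intro i a b
    exact Subtype.ext (hadd i a b)
  · have key : ∀ m n : Fin 14, HP (ln m : K → Equiv.Perm (List (B K))) (ln n) →
        HP (u m) (u n) := by
      rintro m n ⟨z, hz, hrel, h1, h2⟩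
      have hzG : ∀ a, z a ∈ G K := by
        intro a
        have h := hrel a 1
        rw [mul_one] at h
        have e : z a = (ln m a)⁻¹ * (ln n 1)⁻¹ * (ln m a * ln n 1) := by
          rw [h]; group
        rw [e]
        exact mul_mem (mul_mem (inv_mem (hmem m a)) (inv_mem (hmem n 1)))
          (mul_mem (hmem m a) (hmem n 1))
      refine ⟨fun a => ⟨z a, hzG a⟩, ?_, ?_, ?_, ?_⟩
      · intro a b; exact Subtype.ext (hz a b)
      · intro a b; exact Subtype.ext (hrel a b)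
      · intro a b; exact Subtype.ext (h1 a b)
      · intro a b; exact Subtype.ext (h2 a b)
    intro i j hij
    rcases pair i j hij with h | h
    · exact Or.inl (key _ _ h)
    · exact Or.inr (key _ _ h)
  · rw [eq_top_iff]
    rintro ⟨g, hg⟩ -
    refine Subgroup.closure_induction (p := fun x hx => (⟨x, hx⟩ : G K) ∈
      Subgroup.closure {g | ∃ i t, g = u i t}) ?_ ?_ ?_ ?_ hg
    · rintro x ⟨n, t, rfl⟩
      exact Subgroup.subset_closure ⟨n, t, rfl⟩
    · exact one_mem _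
    · intro x y hx hy h1 h2
      exact mul_mem h1 h2
    · intro x hx h1
      exact inv_mem h1

end Pool.Agent.Helper278.TB
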