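import Mathlib
import Pool.Agent.Helper278.TB.Defs

set_option autoImplicit false
set_option linter.all false

namespace Pool.Agent.Helper278.TB

/-! job 25678 -/

section A

variable {K : Type} [Field K]

theorem cf_upd617 (i : Fin 4) (j : Option (Fin 4)) (h : j ≠ some i) (v : B K) (x : K) :
    cf j (Function.update v i x) = cf j v := by
  cases j with
  | none => rfl
  | some k =>
    have hk : k ≠ i := fun e => h (by rw [e])
    simp [cf, Function.update_of_ne hk]

theorem el_zero (i : Fin 4) (j : Option (Fin 4)) (v : B K) : el i j 0 v = v := by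
  unfold el
  split
  · rfl
  · simp

theorem el_add (i : Fin 4) (j : Option (Fin 4)) (s t : K) (v : B K) :
    el i j s (el i j t v) = el i j (s + t) v := by
  by_cases h : j = some i
  · simp [el, h]
  · simp only [el, if_neg h, cf_upd617 i j h, Function.update_self, Function.update_idem]
    congr 1
    ring

theorem el_same (i : Fin 4) (j k : Option (Fin 4)) (s t : K) (v : B K) :
    el i j s (el i k t v) = el i k t (el i j s v) := by
  by_cases h : j = some i
  · simp [el, h]
  · by_cases h' : k = some i
    · simp [el, h']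
    · simp only [el, if_neg h, if_neg h', cf_upd617 i j h, cf_upd617 i k h', Function.update_self,
        Function.update_idem]
      congr 1
      ring

/-- the other coordinates do not change -/
theorem el_other (i : Fin 4) (j : Option (Fin 4)) (s : K) (v : B K) (m : Fin 4) (h : m ≠ i) :
    el i j s v m = v m := by
  unfold el
  split
  · rfl
  · rw [Function.update_of_ne h]

end A

/-! job 25679 -/

section A

variable {K : Type} [Field K]

theorem cf_upd_h8 (i : Fin 4) (l : Option (Fin 4)) (hl : l ≠ some i) (a : K) (v : B K) :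
    cf l (Function.update v i a) = cf l v := by
  cases l with
  | none => rfl
  | some k =>
    have hk : k ≠ i := fun e => hl (by rw [e])
    show Function.update v i a k = v k
    exact Function.update_of_ne hk _ _

theorem el_comm (i k : Fin 4) (j l : Option (Fin 4)) (hik : i ≠ k) (hjk : j ≠ some k)
    (hli : l ≠ some i) (s t : K) (v : B K) :
    el i j s (el k l t v) = el k l t (el i j s v) := by
  by_cases hj : j = some i
  · have h1 : ∀ w : B K, el i j s w = w := fun w => by unfold el; rw [if_pos hj]
    rw [h1, h1]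
  · by_cases hl : l = some k
    · have h1 : ∀ w : B K, el k l t w = w := fun w => by unfold el; rw [if_pos hl]
      rw [h1, h1]
    · have h1 : ∀ w : B K, el i j s w = Function.update w i (w i + s * cf j w) :=
        fun w => by unfold el; rw [if_neg hj]
      have h2 : ∀ w : B K, el k l t w = Function.update w k (w k + t * cf l w) :=
        fun w => by unfold el; rw [if_neg hl]
      rw [h1, h2, h1, h2, cf_upd_h8 k j hjk, cf_upd_h8 i l hli, Function.update_of_ne hik,
        Function.update_of_ne hik.symm, Function.update_comm hik]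

theorem el_heis (i m : Fin 4) (l : Option (Fin 4)) (him : i ≠ m) (hli : l ≠ some i)
    (hlm : l ≠ some m) (s t : K) (v : B K) :
    el i (some m) s (el m l t v) = el m l t (el i (some m) s (el i l (s * t) v)) := by
  have hm : (some m : Option (Fin 4)) ≠ some i := fun e => him (Option.some.inj e).symm
  have h1 : ∀ w : B K, el i (some m) s w = Function.update w i (w i + s * w m) :=
    fun w => by unfold el; rw [if_neg hm]; rfl
  have h2 : ∀ w : B K, el m l t w = Function.update w m (w m + t * cf l w) :=
    fun w => by unfold el; rw [if_neg hlm]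
  have h3 : ∀ w : B K, el i l (s * t) w = Function.update w i (w i + s * t * cf l w) :=
    fun w => by unfold el; rw [if_neg hli]
  rw [h1, h2, h1, h2, h3, cf_upd_h8 i l hli, cf_upd_h8 i l hli, Function.update_of_ne him,
    Function.update_self, Function.update_self, Function.update_idem,
    Function.update_of_ne him.symm, Function.update_of_ne him.symm,
    Function.update_comm him]
  have e : v i + s * (v m + t * cf l v) = v i + s * t * cf l v + s * v m := by ring
  rw [e]

end A

/-! job 25680 -/

section B1

variable {K : Type} [Field K]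

theorem forall2_refl_878 (k : Fin 4) (w : List (B K)) :
    List.Forall₂ (fun v v' : B K => ∀ m, m ≠ k → v m = v' m) w w := by
  induction w with
  | nil => exact List.Forall₂.nil
  | cons v w ih => exact List.Forall₂.cons (fun _ _ => rfl) ih

theorem forall2_T (i : Fin 4) (j : Option (Fin 4)) (c : List (B K) → K) (w : List (B K)) :
    List.Forall₂ (fun v v' : B K => ∀ m, m ≠ i → v m = v' m) (T i j c w) w := by
  induction w generalizing c with
  | nil => exact List.Forall₂.nil
  | cons v w ih =>
    exact List.Forall₂.cons (fun m hm => el_other i j (c []) v m hm) (ih _)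

theorem indep_cons (k : Fin 4) (c : List (B K) → K) (h : Indep k c) (v : B K) :
    Indep k (fun w => c (v :: w)) := by
  intro w w' hw
  exact h _ _ (List.Forall₂.cons (fun _ _ => rfl) hw)

/-- changing the coordinate `k` of the first letter of the history does not matter -/
theorem indep_head (k : Fin 4) (c : List (B K) → K) (h : Indep k c) (v v' : B K)
    (hv : ∀ m, m ≠ k → v m = v' m) (w : List (B K)) : c (v :: w) = c (v' :: w) :=
  h _ _ (List.Forall₂.cons hv (forall2_refl_878 k w))

end B1

/-! job 25681 -/

section B1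

variable {K : Type} [Field K]

theorem T_zero (i : Fin 4) (j : Option (Fin 4)) (w : List (B K)) :
    T i j (fun _ => 0) w = w := by
  induction w with
  | nil => rfl
  | cons v w ih =>
    simp only [T]
    rw [el_zero, ih]

theorem T_add (i : Fin 4) (j : Option (Fin 4)) (c c' : List (B K) → K) (h : Indep i c)
    (w : List (B K)) : T i j c (T i j c' w) = T i j (fun x => c x + c' x) w := by
  induction w generalizing c c' with
  | nil => rfl
  | cons v w ih =>
    simp only [T]
    have e : (fun h => c (el i j (c' []) v :: h)) = fun h => c (v :: h) := by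
      funext x
      exact indep_head i c h _ _ (fun m hm => el_other i j (c' []) v m hm) x
    rw [el_add, e, ih _ _ (indep_cons i c h v)]

end B1

/-! job 25682 -/

section B1

variable {K : Type} [Field K]

theorem T_same (i : Fin 4) (j k : Option (Fin 4)) (c c' : List (B K) → K) (h : Indep i c)
    (h' : Indep i c') (w : List (B K)) : T i j c (T i k c' w) = T i k c' (T i j c w) := by
  induction w generalizing c c' with
  | nil => rfl
  | cons v w ih =>
    simp only [T]
    have h1 : (fun h => c (el i k (c' []) v :: h)) = fun h => c (v :: h) := by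
      funext u
      exact indep_head i c h _ _ (fun m hm => el_other i k _ v m hm) u
    have h2 : (fun h => c' (el i j (c []) v :: h)) = fun h => c' (v :: h) := by
      funext u
      exact indep_head i c' h' _ _ (fun m hm => el_other i j _ v m hm) u
    rw [h1, h2, el_same, ih _ _ (indep_cons i c h v) (indep_cons i c' h' v)]

end B1

/-! job 25683 -/

section B1

variable {K : Type} [Field K]

theorem T_conj (i k : Fin 4) (j l : Option (Fin 4)) (hik : i ≠ k) (hjk : j ≠ some k)
    (hli : l ≠ some i) (c c' : List (B K) → K) (h' : Indep i c') (w : List (B K)) :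
    T i j c (T k l c' w) = T k l c' (T i j (fun x => c (T k l c' x)) w) := by
  induction w generalizing c c' with
  | nil => rfl
  | cons v w ih =>
    have h1 := ih (fun h => c (el k l (c' []) v :: h)) (fun h => c' (v :: h))
      (indep_cons i c' h' v)
    have h2 : (fun h => c' (v :: h)) = (fun h => c' (el i j (c []) v :: h)) := by
      funext h
      exact indep_head i c' h' v _ (fun m hm => (el_other i j (c []) v m hm).symm) h
    simp only [T]
    rw [h1, el_comm i k j l hik hjk hli]
    congr 1
    rw [← h2]

end B1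

/-! job 25684 -/

section B1

variable {K : Type} [Field K]

theorem T_heis (i m : Fin 4) (l : Option (Fin 4)) (him : i ≠ m) (hli : l ≠ some i)
    (hlm : l ≠ some m) (c c' : List (B K) → K) (h1 : Indep i c) (h2 : Indep m c)
    (h3 : Indep i c') (w : List (B K)) :
    T i (some m) c (T m l c' w) =
      T m l c' (T i (some m) c (T i l (fun x => c x * c' x) w)) := by
  induction w generalizing c c' with
  | nil => rfl
  | cons v w ih =>
    have e1 : (fun h => c (el m l (c' []) v :: h)) = fun h => c (v :: h) := by
      funext h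
      exact indep_head m c h2 _ _ (fun k hk => el_other m l (c' []) v k hk) h
    have e2 : (fun h => c (el i l (c [] * c' []) v :: h)) = fun h => c (v :: h) := by
      funext h
      exact indep_head i c h1 _ _ (fun k hk => el_other i l (c [] * c' []) v k hk) h
    have e3 : (fun h => c' (el i (some m) (c []) (el i l (c [] * c' []) v) :: h)) =
        fun h => c' (v :: h) := by
      funext h
      refine indep_head i c' h3 _ _ (fun k hk => ?_) h
      rw [el_other i (some m) (c []) _ k hk, el_other i l (c [] * c' []) v k hk]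
    simp only [T, e1, e2, e3]
    rw [el_heis i m l him hli hlm, ih (fun h => c (v :: h)) (fun h => c' (v :: h))
      (indep_cons i c h1 v) (indep_cons m c h2 v) (indep_cons i c' h3 v)]


end B1

/-! job 25685 -/

section B2

variable {K : Type} [Field K]

theorem TP_apply (i : Fin 4) (j : Option (Fin 4)) (c : List (B K) → K) (w : List (B K)) :
    TP i j c w = T i j c w := by
  rfl

theorem TP_zero (i : Fin 4) (j : Option (Fin 4)) : TP i j (fun _ : List (B K) => (0 : K)) = 1 := by
  exact Equiv.ext fun w => T_zero i j w

theorem TP_add (i : Fin 4) (j : Option (Fin 4)) (c c' : List (B K) → K) (h : Indep i c) :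
    TP i j (fun x => c x + c' x) = TP i j c * TP i j c' := by
  exact Equiv.ext fun w => (T_add i j c c' h w).symm

theorem TP_same (i : Fin 4) (j k : Option (Fin 4)) (c c' : List (B K) → K) (h : Indep i c)
    (h' : Indep i c') : TP i j c * TP i k c' = TP i k c' * TP i j c := by
  exact Equiv.ext fun w => T_same i j k c c' h h' w

theorem TP_conj (i k : Fin 4) (j l : Option (Fin 4)) (hik : i ≠ k) (hjk : j ≠ some k)
    (hli : l ≠ some i) (c c' : List (B K) → K) (h' : Indep i c') :
    TP i j c * TP k l c' = TP k l c' * TP i j (fun x => c (T k l c' x)) := by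
  exact Equiv.ext fun w => T_conj i k j l hik hjk hli c c' h' w

theorem TP_heis (i m : Fin 4) (l : Option (Fin 4)) (him : i ≠ m) (hli : l ≠ some i)
    (hlm : l ≠ some m) (c c' : List (B K) → K) (h1 : Indep i c) (h2 : Indep m c)
    (h3 : Indep i c') :
    TP i (some m) c * TP m l c' =
      TP m l c' * (TP i (some m) c * TP i l (fun x => c x * c' x)) := by
  exact Equiv.ext fun w => T_heis i m l him hli hlm c c' h1 h2 h3 w

end B2

/-! job 25686 -/

section B2

variable {K : Type} [Field K]

theorem TP_comm (i k : Fin 4) (j l : Option (Fin 4)) (hik : i ≠ k) (hjk : j ≠ some k)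
    (hli : l ≠ some i) (c c' : List (B K) → K) (h : Indep k c) (h' : Indep i c') :
    TP i j c * TP k l c' = TP k l c' * TP i j c := by
  rw [TP_conj i k j l hik hjk hli c c' h']
  have e : (fun x => c (T k l c' x)) = c := funext fun x => h _ _ (forall2_T k l c' x)
  rw [e]

end B2

/-! job 25687 -/

section B2

variable {K : Type} [Field K]

theorem sm_indep_104 (m k : Fin 4) (h : k ≠ m) : Indep k (sm m : List (B K) → K) := by
  intro w w' hw
  induction hw with
  | nil => rfl
  | cons h1 _ ih => simp only [sm, h1 m h.symm, ih]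

theorem la_indep_104 (m k : Fin 4) (h : k ≠ m) : Indep k (la m : List (B K) → K) := by
  intro w w' hw
  induction hw with
  | nil => rfl
  | cons h1 h2 ih =>
    cases h2 with
    | nil => simp only [la]; exact h1 m h.symm
    | cons h3 h4 => simp only [la]; exact ih

theorem one_indep_104 (k : Fin 4) : Indep k (one : List (B K) → K) := by
  intro w w' _
  rfl

theorem rt_indep_104 (k : Fin 4) : Indep k (rt : List (B K) → K) := by
  intro w w' hw
  cases hw with
  | nil => rfl
  | cons h1 h2 => rfl

theorem lf_indep (c k : Fin 4) (h : k ≠ 3 ∨ c = 0 ∨ c = 1) :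
    Indep k (lf c : List (B K) → K) := by
  fin_cases c
  · exact one_indep_104 k
  · exact rt_indep_104 k
  · exact sm_indep_104 3 k (by simpa using h)
  · exact la_indep_104 3 k (by simpa using h)

theorem sm_indep (m k : Fin 4) (h : k ≠ m) : Indep k (sm m : List (B K) → K) := by
  exact sm_indep_104 m k h

theorem la_indep (m k : Fin 4) (h : k ≠ m) : Indep k (la m : List (B K) → K) := by
  exact la_indep_104 m k h

theorem fs_indep (m k : Fin 4) (h : k ≠ m) : Indep k (fs m : List (B K) → K) := by
  intro w w' hw
  cases hw with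
  | nil => rfl
  | cons h1 h2 => exact h1 m h.symm

theorem ol_indep (m k : Fin 4) (h : k ≠ m) : Indep k (ol m : List (B K) → K) := by
  intro w w' hw
  cases hw with
  | nil => rfl
  | cons h1 h2 =>
    cases h2 with
    | nil => exact h1 m h.symm
    | cons h3 h4 => rfl

theorem indep_const (k : Fin 4) (a : K) : Indep k (fun _ : List (B K) => a) := by
  intro w w' _
  rfl

theorem indep_smul (k : Fin 4) (a : K) (c : List (B K) → K) (h : Indep k c) :
    Indep k (fun x => a * c x) := by
  intro w w' hw
  show a * c w = a * c w'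
  rw [h w w' hw]

theorem indep_mul (k : Fin 4) (c c' : List (B K) → K) (h : Indep k c) (h' : Indep k c') :
    Indep k (fun x => c x * c' x) := by
  intro w w' hw
  show c w * c' w = c w' * c' w'
  rw [h w w' hw, h' w w' hw]

end B2

/-! job 25688 -/

section P

variable {K : Type} [Field K]

/-- same row -/
theorem hp_same (i : Fin 4) (j k : Option (Fin 4)) (c c' : List (B K) → K) (h : Indep i c)
    (h' : Indep i c') :
    HP (fun t : K => TP i j (fun x => t * c x)) (fun t : K => TP i k (fun x => t * c' x)) := by
  refine ⟨fun _ => 1, fun _ _ => (mul_one 1).symm, ?_, fun _ _ => by rw [one_mul, mul_one],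
    fun _ _ => by rw [one_mul, mul_one]⟩
  intro a b
  rw [mul_one]
  exact TP_same i j k _ _ (indep_smul i a c h) (indep_smul i b c' h')

theorem hp_comm (i k : Fin 4) (j l : Option (Fin 4)) (hik : i ≠ k) (hjk : j ≠ some k)
    (hli : l ≠ some i) (c c' : List (B K) → K) (h : Indep k c) (h' : Indep i c') :
    HP (fun t : K => TP i j (fun x => t * c x)) (fun t : K => TP k l (fun x => t * c' x)) := by
  refine ⟨fun _ => 1, fun _ _ => (mul_one 1).symm, ?_, fun _ _ => by rw [one_mul, mul_one],
    fun _ _ => by rw [one_mul, mul_one]⟩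
  intro a b
  rw [mul_one]
  exact TP_comm i k j l hik hjk hli _ _ (indep_smul k a c h) (indep_smul i b c' h')

end P

/-! job 25689 -/

section P

variable {K : Type} [Field K]

theorem hp_heis (i m : Fin 4) (l : Option (Fin 4)) (him : i ≠ m) (hli : l ≠ some i)
    (hlm : l ≠ some m) (c c' : List (B K) → K) (h1 : Indep i c) (h2 : Indep m c)
    (h3 : Indep i c') (h4 : Indep m c') :
    HP (fun t : K => TP i (some m) (fun x => t * c x))
      (fun t : K => TP m l (fun x => t * c' x)) := by
  refine ⟨fun t => TP i l (fun x => t * (c x * c' x)), ?_, ?_, ?_, ?_⟩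
  · intro a b
    have h := TP_add i l (fun x => a * (c x * c' x)) (fun x => b * (c x * c' x))
      (indep_smul i a _ (indep_mul i c c' h1 h3))
    have e : (fun x : List (B K) => (a + b) * (c x * c' x)) =
        fun x => a * (c x * c' x) + b * (c x * c' x) := by
      funext x; ring
    simp only [e]
    exact h
  · intro a b
    have h := TP_heis i m l him hli hlm (fun x => a * c x) (fun x => b * c' x)
      (indep_smul i a c h1) (indep_smul m a c h2) (indep_smul i b c' h3)
    have e : (fun x : List (B K) => a * b * (c x * c' x)) =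
        fun x => a * c x * (b * c' x) := by
      funext x; ring
    simp only [e]
    exact h
  · intro a b
    exact TP_same i l (some m) (fun x => a * (c x * c' x)) (fun x => b * c x)
      (indep_smul i a _ (indep_mul i c c' h1 h3)) (indep_smul i b c h1)
  · intro a b
    exact TP_comm i m l l him hlm hli (fun x => a * (c x * c' x)) (fun x => b * c' x)
      (indep_smul m a _ (indep_mul m c c' h2 h4)) (indep_smul i b c' h3)

end P

/-! job 25690 -/

section P

variable {K : Type} [Field K]

/-- the coefficient function depends on the coordinate moved by the other line -/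
theorem hp_spec (i k : Fin 4) (j l : Option (Fin 4)) (hik : i ≠ k) (hjk : j ≠ some k)
    (hli : l ≠ some i) (c c' d : List (B K) → K) (h1 : Indep i c) (h2 : Indep i c')
    (h3 : Indep i d) (h4 : Indep k d)
    (hc : ∀ (b : K) (x : List (B K)), c (T k l (fun y => b * c' y) x) = c x + b * d x) :
    HP (fun t : K => TP i j (fun x => t * c x)) (fun t : K => TP k l (fun x => t * c' x)) := by
  refine ⟨fun t => TP i j (fun x => t * d x), ?_, ?_, ?_, ?_⟩
  · intro a b
    have h := TP_add i j (fun x => a * d x) (fun x => b * d x) (indep_smul i a d h3)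
    have e : (fun x => (a + b) * d x) = fun x => a * d x + b * d x := funext fun x => by ring
    show TP i j (fun x => (a + b) * d x) = TP i j (fun x => a * d x) * TP i j (fun x => b * d x)
    rw [e, h]
  · intro a b
    show TP i j (fun x => a * c x) * TP k l (fun x => b * c' x) =
      TP k l (fun x => b * c' x) * (TP i j (fun x => a * c x) * TP i j (fun x => a * b * d x))
    rw [TP_conj i k j l hik hjk hli (fun x => a * c x) (fun x => b * c' x)
      (indep_smul i b c' h2)]
    have e : (fun x => a * c (T k l (fun y => b * c' y) x)) =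
        fun x => a * c x + a * b * d x := funext fun x => by rw [hc]; ring
    have h := TP_add i j (fun x => a * c x) (fun x => a * b * d x) (indep_smul i a c h1)
    rw [← h, ← e]
  · intro a b
    exact TP_same i j j _ _ (indep_smul i a d h3) (indep_smul i b c h1)
  · intro a b
    exact TP_comm i k j l hik hjk hli _ _ (indep_smul k a d h4) (indep_smul i b c' h2)

end P

/-! job 25692 -/

section P

variable {K : Type} [Field K]

theorem el3_518 (b : K) (v : B K) : el 3 (some 2) b v 3 = v 3 + b * v 2 := by
  simp [el, cf]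

theorem el_zero_518 (v : B K) : el 3 (some 2) (0 : K) v = v := by
  simp [el]

theorem T_zero_518 (w : List (B K)) : T 3 (some 2) (fun _ => (0 : K)) w = w := by
  induction w with
  | nil => rfl
  | cons v w ih => simp only [T, el_zero_518, ih]

theorem T_rt_518 (b : K) (v : B K) (w : List (B K)) :
    T 3 (some 2) (fun y => b * rt y) (v :: w) = el 3 (some 2) b v :: w := by
  have h : (fun h : List (B K) => b * rt (v :: h)) = fun _ => (0 : K) := by
    funext h
    simp [rt]
  simp only [T]
  rw [h, T_zero_518]
  simp [rt]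

theorem T_one_518 (b : K) (v : B K) (w : List (B K)) :
    T 3 (some 2) (fun y => b * one y) (v :: w) =
      el 3 (some 2) b v :: T 3 (some 2) (fun y => b * one y) w := by
  simp only [T, one, mul_one]

theorem sm_one (b : K) (x : List (B K)) :
    sm 3 (T 3 (some 2) (fun y => b * one y) x) = sm 3 x + b * sm 2 x := by
  induction x with
  | nil => simp [T, sm]
  | cons v w ih =>
    rw [T_one_518]
    simp only [sm]
    rw [ih, el3_518]
    ring

theorem sm_rt (b : K) (x : List (B K)) :
    sm 3 (T 3 (some 2) (fun y => b * rt y) x) = sm 3 x + b * fs 2 x := by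
  cases x with
  | nil => simp [T, sm, fs]
  | cons v w =>
    rw [T_rt_518]
    simp only [sm, fs]
    rw [el3_518]
    ring

theorem la_one (b : K) (x : List (B K)) :
    la 3 (T 3 (some 2) (fun y => b * one y) x) = la 3 x + b * la 2 x := by
  induction x with
  | nil => simp [T, la]
  | cons v w ih =>
    cases w with
    | nil =>
      rw [T_one_518]
      simp only [T, la]
      rw [el3_518]
    | cons u w =>
      rw [T_one_518]
      rw [T_one_518] at ih ⊢
      simp only [la] at ih ⊢
      exact ih

theorem la_rt (b : K) (x : List (B K)) :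
    la 3 (T 3 (some 2) (fun y => b * rt y) x) = la 3 x + b * ol 2 x := by
  cases x with
  | nil => simp [T, la, ol]
  | cons v w =>
    rw [T_rt_518]
    cases w with
    | nil =>
      simp only [la, ol]
      rw [el3_518]
    | cons u w =>
      simp only [la, ol]
      ring

end P

/-! job 25693 -/

section P

variable {K : Type} [Field K]

theorem data_ok352 : ∀ n : Fin 14, (data n).1 ≠ 3 ∨ (data n).2.2 = 0 ∨ (data n).2.2 = 1 := by
  decide

theorem ln_add (n : Fin 14) (s t : K) : ln n (s + t) = ln n s * ln n t := by
  have h : Indep (data n).1 (fun x : List (B K) => s * lf (data n).2.2 x) :=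
    indep_smul _ s _ (lf_indep _ _ (data_ok352 n))
  unfold ln
  rw [← TP_add _ _ _ _ h]
  congr 1
  funext x
  ring

end P

/-! job 25694 -/

section P

variable {K : Type} [Field K]

theorem hp_spec_all_761 (c c' : Fin 4) (hc : c = 2 ∨ c = 3) (hc' : c' = 0 ∨ c' = 1) :
    HP (fun t : K => TP 0 (some 1) (fun x => t * lf c x))
      (fun t : K => TP 3 (some 2) (fun x => t * lf c' x)) := by
  have e0 : (lf 0 : List (B K) → K) = one := rfl
  have e1 : (lf 1 : List (B K) → K) = rt := rfl
  have e2 : (lf 2 : List (B K) → K) = sm 3 := rfl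
  have e3 : (lf 3 : List (B K) → K) = la 3 := rfl
  have i1 : Indep 0 (lf c : List (B K) → K) := lf_indep c 0 (Or.inl (by decide))
  have i2 : Indep 0 (lf c' : List (B K) → K) := lf_indep c' 0 (Or.inl (by decide))
  rcases hc with rfl | rfl <;> rcases hc' with rfl | rfl
  · rw [e2] at i1 ⊢
    rw [e0] at i2 ⊢
    exact hp_spec 0 3 (some 1) (some 2) (by decide) (by decide) (by decide) _ _ (sm 2) i1 i2
      (sm_indep 2 0 (by decide)) (sm_indep 2 3 (by decide)) sm_one
  · rw [e2] at i1 ⊢
    rw [e1] at i2 ⊢
    exact hp_spec 0 3 (some 1) (some 2) (by decide) (by decide) (by decide) _ _ (fs 2) i1 i2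
      (fs_indep 2 0 (by decide)) (fs_indep 2 3 (by decide)) sm_rt
  · rw [e3] at i1 ⊢
    rw [e0] at i2 ⊢
    exact hp_spec 0 3 (some 1) (some 2) (by decide) (by decide) (by decide) _ _ (la 2) i1 i2
      (la_indep 2 0 (by decide)) (la_indep 2 3 (by decide)) la_one
  · rw [e3] at i1 ⊢
    rw [e1] at i2 ⊢
    exact hp_spec 0 3 (some 1) (some 2) (by decide) (by decide) (by decide) _ _ (ol 2) i1 i2
      (ol_indep 2 0 (by decide)) (ol_indep 2 3 (by decide)) la_rt

/-- the covered pairs of lines -/
def Cov761 (a b : Fin 4 × Option (Fin 4) × Fin 4) : Prop :=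
  (a.1 = b.1 ∧ (a.1 ≠ 3 ∨ a.2.2 = 0 ∨ a.2.2 = 1) ∧ (a.1 ≠ 3 ∨ b.2.2 = 0 ∨ b.2.2 = 1)) ∨
  (a.1 ≠ b.1 ∧ a.2.1 ≠ some b.1 ∧ b.2.1 ≠ some a.1 ∧ (b.1 ≠ 3 ∨ a.2.2 = 0 ∨ a.2.2 = 1) ∧
    (a.1 ≠ 3 ∨ b.2.2 = 0 ∨ b.2.2 = 1)) ∨
  (a.1 ≠ b.1 ∧ a.2.1 = some b.1 ∧ b.2.1 ≠ some a.1 ∧ b.2.1 ≠ some b.1 ∧
    (a.1 ≠ 3 ∨ a.2.2 = 0 ∨ a.2.2 = 1) ∧ (b.1 ≠ 3 ∨ a.2.2 = 0 ∨ a.2.2 = 1) ∧
    (a.1 ≠ 3 ∨ b.2.2 = 0 ∨ b.2.2 = 1) ∧ (b.1 ≠ 3 ∨ b.2.2 = 0 ∨ b.2.2 = 1)) ∨
  (a.1 = 0 ∧ a.2.1 = some 1 ∧ (a.2.2 = 2 ∨ a.2.2 = 3) ∧ b.1 = 3 ∧ b.2.1 = some 2 ∧
    (b.2.2 = 0 ∨ b.2.2 = 1))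

instance (a b : Fin 4 × Option (Fin 4) × Fin 4) : Decidable (Cov761 a b) := by
  unfold Cov761
  infer_instance

theorem hp_of_cov761 (a b : Fin 4 × Option (Fin 4) × Fin 4) (h : Cov761 a b) :
    HP (fun t : K => TP a.1 a.2.1 (fun x => t * lf a.2.2 x))
      (fun t : K => TP b.1 b.2.1 (fun x => t * lf b.2.2 x)) := by
  obtain ⟨i, j, c⟩ := a
  obtain ⟨k, l, c'⟩ := b
  rcases h with ⟨h1, h2, h3⟩ | ⟨h1, h2, h3, h4, h5⟩ | ⟨h1, h2, h3, h4, h5, h6, h7, h8⟩ |
    ⟨h1, h2, h3, h4, h5, h6⟩
  · dsimp only at h1 h2 h3 ⊢
    subst h1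
    exact hp_same i j l _ _ (lf_indep c i h2) (lf_indep c' i h3)
  · dsimp only at h1 h2 h3 h4 h5 ⊢
    exact hp_comm i k j l h1 h2 h3 _ _ (lf_indep c k h4) (lf_indep c' i h5)
  · dsimp only at h1 h2 h3 h4 h5 h6 h7 h8 ⊢
    subst h2
    exact hp_heis i k l h1 h3 h4 _ _ (lf_indep c i h5) (lf_indep c k h6) (lf_indep c' i h7)
      (lf_indep c' k h8)
  · dsimp only at h1 h2 h3 h4 h5 h6 ⊢
    subst h1 h2 h4 h5
    exact hp_spec_all_761 c c' h3 h6

theorem cov_all_761 : ∀ m n : Fin 14, m ≠ n → Cov761 (data m) (data n) ∨ Cov761 (data n) (data m) := by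
  decide

theorem pair_all (m n : Fin 14) (h : m ≠ n) :
    HP (ln m : K → Equiv.Perm (List (B K))) (ln n) ∨
      HP (ln n : K → Equiv.Perm (List (B K))) (ln m) := by
  rcases cov_all_761 m n h with h | h
  · exact Or.inl (hp_of_cov761 _ _ h)
  · exact Or.inr (hp_of_cov761 _ _ h)

end P

end Pool.Agent.Helper278.TB
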