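import Mathlib
import Pool.Agent.Helper278.TB.Defs
import Pool.Agent.Helper278.TB.Tree

set_option autoImplicit false
set_option linter.all false

namespace Pool.Agent.Helper278.TB

/-! job 25695 -/

section S

variable {K : Type} [Field K]

theorem Lam_nil (φ : B K → Equiv.Perm (List (B K))) : Lam φ [] = [] := by
  rfl

theorem Lam_cons (φ : B K → Equiv.Perm (List (B K))) (v : B K) (w : List (B K)) :
    Lam φ (v :: w) = v :: φ v w := by
  rfl

theorem rho_nil (σ : Equiv.Perm (B K)) : rho σ [] = [] := by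
  rfl

theorem rho_cons (σ : Equiv.Perm (B K)) (v : B K) (w : List (B K)) :
    rho σ (v :: w) = σ v :: w := by
  rfl

theorem Lam_mul (φ ψ : B K → Equiv.Perm (List (B K))) :
    Lam (fun v => φ v * ψ v) = Lam φ * Lam ψ := by
  ext1 w
  cases w <;> rfl

theorem Lam_one : Lam (fun _ : B K => (1 : Equiv.Perm (List (B K)))) = 1 := by
  ext1 w
  cases w <;> rfl

theorem Lam_inv (φ : B K → Equiv.Perm (List (B K))) :
    Lam (fun v => (φ v)⁻¹) = (Lam φ)⁻¹ := by
  ext1 w
  cases w <;> rfl

theorem rho_mul (σ τ : Equiv.Perm (B K)) : rho (σ * τ) = rho σ * rho τ := by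
  ext1 w
  cases w <;> rfl

theorem rho_conj (σ : Equiv.Perm (B K)) (φ : B K → Equiv.Perm (List (B K))) :
    rho σ * Lam φ * (rho σ)⁻¹ = Lam (fun v => φ (σ⁻¹ v)) := by
  ext1 w
  cases w with
  | nil => rfl
  | cons v w =>
    show σ (σ⁻¹ v) :: φ (σ⁻¹ v) w = v :: φ (σ⁻¹ v) w
    rw [show σ (σ⁻¹ v) = v from σ.apply_symm_apply v]

end S

/-! job 25699 -/

section S

variable {K : Type} [Field K]

theorem E_add (i : Fin 4) (j : Option (Fin 4)) (s t : K) :
    E i j (s + t) = E i j s * E i j t :=
  TP_add i j (fun _ => s) (fun _ => t) (indep_const i s)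

theorem R_add (i : Fin 4) (j : Option (Fin 4)) (s t : K) :
    R i j (s + t) = R i j s * R i j t := by
  have h : (fun h : List (B K) => (s + t) * rt h) = fun h => s * rt h + t * rt h := by
    funext h
    ring
  unfold R
  rw [h]
  exact TP_add i j (fun h => s * rt h) (fun h => t * rt h)
    (indep_smul i s rt (lf_indep 1 i (Or.inr (Or.inr rfl))))

theorem E_zero (i : Fin 4) (j : Option (Fin 4)) :
    E i j (0 : K) = 1 :=
  TP_zero i j

theorem R_zero (i : Fin 4) (j : Option (Fin 4)) :
    R i j (0 : K) = 1 := by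
  have h : (fun h : List (B K) => (0 : K) * rt h) = fun _ => 0 := by
    funext h
    ring
  unfold R
  rw [h]
  exact TP_zero i j

end S

/-! job 25696 -/

section S

variable {K : Type} [Field K]

theorem TP_rec (i : Fin 4) (j : Option (Fin 4)) (c : List (B K) → K) :
    TP i j c = rho (elP i j (c [])) * Lam (fun v => TP i j (fun h => c (v :: h))) := by
  apply Equiv.ext
  intro w
  cases w with
  | nil =>
    rw [Equiv.Perm.mul_apply, Lam_nil, rho_nil]
    rfl
  | cons v w =>
    rw [Equiv.Perm.mul_apply, Lam_cons, rho_cons]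
    rfl

theorem R_eq (i : Fin 4) (j : Option (Fin 4)) (t : K) : R i j t = rho (elP i j t) := by
  unfold R
  rw [TP_rec]
  have h1 : (fun v : B K => TP i j (fun h => t * rt (v :: h))) =
      fun _ => (1 : Equiv.Perm (List (B K))) := by
    funext v
    have h2 : (fun h : List (B K) => t * rt (v :: h)) = fun _ => (0 : K) := by
      funext h
      show t * 0 = 0
      rw [mul_zero]
    rw [h2, TP_zero]
  have h3 : t * rt ([] : List (B K)) = t := by
    show t * 1 = t
    rw [mul_one]
  rw [h1, Lam_one, mul_one, h3]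

theorem E_rec (i : Fin 4) (j : Option (Fin 4)) (t : K) :
    E i j t = R i j t * EF i j (fun _ => t) := by
  rw [R_eq]
  exact TP_rec i j (fun _ => t)

end S

/-! job 25697 -/

section S

variable {K : Type} [Field K]

theorem TP_rec0_640 (i : Fin 4) (j : Option (Fin 4)) (c : List (B K) → K) (h0 : c [] = 0) :
    TP i j c = Lam (fun v => TP i j (fun h => c (v :: h))) := by
  rw [TP_rec, h0]
  have h1 : rho (elP i j (0 : K)) = 1 := by
    apply Equiv.ext
    intro x
    cases x with
    | nil => rw [rho_nil]; rfl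
    | cons v w =>
      rw [rho_cons]
      have h2 : elP i j (0 : K) v = v := by
        show el i j (0 : K) v = v
        unfold el
        by_cases h : j = some i
        · simp [h]
        · simp [h]
      rw [h2]
      rfl
  rw [h1, one_mul]

theorem ln2_rec (s : K) :
    ln 2 s = Lam (fun v : B K => E 0 (some 1) (s * v 3) * ln 2 s) := by
  have e : (ln 2 s : Equiv.Perm (List (B K))) = TP 0 (some 1) (fun h => s * sm 3 h) := rfl
  conv_lhs => rw [e]
  rw [TP_rec0_640 _ _ _ (by simp [sm])]
  congr 1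
  funext v
  have h3 := TP_add 0 (some 1) (fun _ : List (B K) => s * v 3) (fun h => s * sm 3 h)
    (indep_const 0 _)
  have h4 : (fun h : List (B K) => s * sm 3 (v :: h)) = fun h => s * v 3 + s * sm 3 h := by
    funext h
    show s * (v 3 + sm 3 h) = _
    ring
  rw [h4, h3]
  rfl

theorem ln3_rec (s : K) :
    ln 3 s = Lam (fun v : B K => R 0 (some 1) (s * v 3) * ln 3 s) := by
  have e : (ln 3 s : Equiv.Perm (List (B K))) = TP 0 (some 1) (fun h => s * la 3 h) := rfl
  conv_lhs => rw [e]
  rw [TP_rec0_640 _ _ _ (by simp [la])]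
  congr 1
  funext v
  have h2 : Indep 0 (fun h : List (B K) => (s * v 3) * rt h) := by
    have := lf_indep (K := K) 1 0 (Or.inl (by decide))
    exact indep_smul 0 (s * v 3) _ this
  have h3 := TP_add 0 (some 1) (fun h : List (B K) => (s * v 3) * rt h) (fun h => s * la 3 h) h2
  have h4 : (fun h : List (B K) => s * la 3 (v :: h))
      = fun h => (s * v 3) * rt h + s * la 3 h := by
    funext h
    cases h with
    | nil => simp [la, rt]
    | cons a t => simp [la, rt]
  rw [h4, h3]
  rfl

end S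

/-! job 25698 -/

section S

variable {K : Type} [Field K]

theorem ln2_comm_E (s t : K) :
    ln 2 s * E 0 (some 1) t = E 0 (some 1) t * (ln 2 s : Equiv.Perm (List (B K))) :=
  TP_same 0 (some 1) (some 1) (fun h => s * lf 2 h) (fun _ => t)
    (indep_smul 0 s _ (lf_indep 2 0 (Or.inl (by decide)))) (indep_const 0 t)

theorem ln3_comm_R (s t : K) :
    ln 3 s * R 0 (some 1) t = R 0 (some 1) t * (ln 3 s : Equiv.Perm (List (B K))) :=
  TP_same 0 (some 1) (some 1) (fun h => s * lf 3 h) (fun h => t * rt h)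
    (indep_smul 0 s _ (lf_indep 3 0 (Or.inl (by decide))))
    (indep_smul 0 t rt (lf_indep 1 0 (Or.inl (by decide))))

theorem ln3_comm_ln2 (s t : K) :
    ln 3 s * ln 2 t = ln 2 t * (ln 3 s : Equiv.Perm (List (B K))) :=
  TP_same 0 (some 1) (some 1) (fun h => s * lf 3 h) (fun h => t * lf 2 h)
    (indep_smul 0 s _ (lf_indep 3 0 (Or.inl (by decide))))
    (indep_smul 0 t _ (lf_indep 2 0 (Or.inl (by decide))))

end S

/-! job 25700 -/

section S

variable {K : Type} [Field K]

theorem rt_indep_h687 (k : Fin 4) (a : K) : Indep k (fun x : List (B K) => a * rt x) := by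
  have h := lf_indep (K := K) 1 k (Or.inr (Or.inr rfl))
  exact indep_smul k a rt h

theorem rt_mul_rt_h687 (x : List (B K)) : (rt x : K) * rt x = rt x := by
  cases x <;> simp [rt]

theorem EE_heis (i m : Fin 4) (l : Option (Fin 4)) (him : i ≠ m) (hli : l ≠ some i)
    (hlm : l ≠ some m) (s t : K) :
    E i (some m) s * E m l t = E m l t * (E i (some m) s * E i l (s * t)) :=
  TP_heis i m l him hli hlm (fun _ => s) (fun _ => t) (indep_const i s) (indep_const m s)
    (indep_const i t)

theorem RE_heis (i m : Fin 4) (l : Option (Fin 4)) (him : i ≠ m) (hli : l ≠ some i)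
    (hlm : l ≠ some m) (s t : K) :
    R i (some m) s * E m l t = E m l t * (R i (some m) s * R i l (s * t)) := by
  have h := TP_heis i m l him hli hlm (fun x => s * rt x) (fun _ => t) (rt_indep_h687 i s)
    (rt_indep_h687 m s) (indep_const i t)
  have e : (fun x : List (B K) => s * rt x * t) = fun x => s * t * rt x := by
    funext x
    ring
  rw [e] at h
  exact h

theorem ER_heis (i m : Fin 4) (l : Option (Fin 4)) (him : i ≠ m) (hli : l ≠ some i)
    (hlm : l ≠ some m) (s t : K) :
    E i (some m) s * R m l t = R m l t * (E i (some m) s * R i l (s * t)) := by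
  have h := TP_heis i m l him hli hlm (fun _ => s) (fun x => t * rt x) (indep_const i s)
    (indep_const m s) (rt_indep_h687 i t)
  have e : (fun x : List (B K) => s * (t * rt x)) = fun x => s * t * rt x := by
    funext x
    ring
  rw [e] at h
  exact h

theorem RR_heis (i m : Fin 4) (l : Option (Fin 4)) (him : i ≠ m) (hli : l ≠ some i)
    (hlm : l ≠ some m) (s t : K) :
    R i (some m) s * R m l t = R m l t * (R i (some m) s * R i l (s * t)) := by
  have h := TP_heis i m l him hli hlm (fun x => s * rt x) (fun x => t * rt x) (rt_indep_h687 i s)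
    (rt_indep_h687 m s) (rt_indep_h687 i t)
  have e : (fun x : List (B K) => s * rt x * (t * rt x)) = fun x => s * t * rt x := by
    funext x
    rw [mul_mul_mul_comm, rt_mul_rt_h687]
  rw [e] at h
  exact h

end S

/-! job 25701 -/

section S

variable {K : Type} [Field K]

theorem at'_apply (b : B K) (g : Equiv.Perm (List (B K))) (w : List (B K)) :
    at' b g (b :: w) = b :: g w := by
  unfold at'
  rw [Lam_cons, if_pos rfl]

theorem at'_apply_ne (b v : B K) (h : v ≠ b) (g : Equiv.Perm (List (B K))) (w : List (B K)) :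
    at' b g (v :: w) = v :: w := by
  unfold at'
  rw [Lam_cons, if_neg h]
  rfl

theorem at'_nil_525 (b : B K) (g : Equiv.Perm (List (B K))) : at' b g [] = [] := by
  unfold at'
  rw [Lam_nil]

theorem at'_mul (b : B K) (g h : Equiv.Perm (List (B K))) :
    at' b (g * h) = at' b g * at' b h := by
  refine Equiv.ext fun w => ?_
  rw [Equiv.Perm.mul_apply]
  cases w with
  | nil => rw [at'_nil_525, at'_nil_525, at'_nil_525]
  | cons v w =>
    by_cases hv : v = b
    · subst hv
      rw [at'_apply, at'_apply, at'_apply, Equiv.Perm.mul_apply]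
    · rw [at'_apply_ne b v hv, at'_apply_ne b v hv, at'_apply_ne b v hv]

theorem at'_one_525 (b : B K) : at' b (1 : Equiv.Perm (List (B K))) = 1 := by
  refine Equiv.ext fun w => ?_
  rw [Equiv.Perm.one_apply]
  cases w with
  | nil => rw [at'_nil_525]
  | cons v w =>
    by_cases hv : v = b
    · subst hv
      rw [at'_apply, Equiv.Perm.one_apply]
    · rw [at'_apply_ne b v hv]

theorem at'_inv (b : B K) (g : Equiv.Perm (List (B K))) :
    at' b g⁻¹ = (at' b g)⁻¹ := by
  refine eq_inv_of_mul_eq_one_left ?_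
  rw [← at'_mul, inv_mul_cancel, at'_one_525]

theorem at'_one (b : B K) : at' b (1 : Equiv.Perm (List (B K))) = 1 :=
  at'_one_525 b

end S

/-! job 25702 -/

section M

variable {K : Type} [Field K]

/-- all pairs from the edges -/
theorem all_of_edges (Q : Fin 4 → Option (Fin 4) → Prop) (h01 : Q 0 (some 1))
    (h12 : Q 1 (some 2)) (h20 : Q 2 (some 0)) (h03 : Q 0 (some 3)) (h32 : Q 3 (some 2))
    (h0n : Q 0 none)
    (hc : ∀ (i m : Fin 4) (l : Option (Fin 4)), i ≠ m → l ≠ some i → l ≠ some m →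
      Q i (some m) → Q m l → Q i l) :
    ∀ i j, j ≠ some i → Q i j := by
  have h10 : Q 1 (some 0) := hc 1 2 (some 0) (by decide) (by decide) (by decide) h12 h20
  have h02 : Q 0 (some 2) := hc 0 1 (some 2) (by decide) (by decide) (by decide) h01 h12
  have h21 : Q 2 (some 1) := hc 2 0 (some 1) (by decide) (by decide) (by decide) h20 h01
  have h23 : Q 2 (some 3) := hc 2 0 (some 3) (by decide) (by decide) (by decide) h20 h03
  have h13 : Q 1 (some 3) := hc 1 0 (some 3) (by decide) (by decide) (by decide) h10 h03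
  have h30 : Q 3 (some 0) := hc 3 2 (some 0) (by decide) (by decide) (by decide) h32 h20
  have h31 : Q 3 (some 1) := hc 3 0 (some 1) (by decide) (by decide) (by decide) h30 h01
  have h2n : Q 2 none := hc 2 0 none (by decide) (by decide) (by decide) h20 h0n
  have h1n : Q 1 none := hc 1 2 none (by decide) (by decide) (by decide) h12 h2n
  have h3n : Q 3 none := hc 3 2 none (by decide) (by decide) (by decide) h32 h2n
  intro i j hj
  cases j with
  | none => fin_cases i <;> assumption
  | some j =>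
    fin_cases i <;> fin_cases j <;> first | assumption | exact absurd rfl hj

/-- all pairs from one pair -/
theorem all_of_moves (Q : Fin 4 → Option (Fin 4) → Prop) (i0 m0 : Fin 4) (h0 : i0 ≠ m0)
    (h : Q i0 (some m0))
    (hr : ∀ (i m : Fin 4) (l : Option (Fin 4)), i ≠ m → l ≠ some i → l ≠ some m →
      Q i (some m) → Q i l)
    (hl : ∀ (i m : Fin 4) (l : Option (Fin 4)), i ≠ m → l ≠ some i → l ≠ some m →
      Q m l → Q i l) :
    ∀ i j, j ≠ some i → Q i j := by
  have hA : ∀ l : Option (Fin 4), l ≠ some i0 → Q i0 l := by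
    intro l hl0
    by_cases hm : l = some m0
    · rw [hm]; exact h
    · exact hr i0 m0 l h0 hl0 hm h
  have hB : ∀ (k : Fin 4) (l : Option (Fin 4)), k ≠ i0 → l ≠ some k → l ≠ some i0 → Q k l := by
    intro k l hk h1 h2
    exact hl k i0 l hk h1 h2 (hA l h2)
  intro i j hj
  by_cases hi : i = i0
  · subst hi
    exact hA j hj
  by_cases hj0 : j = some i0
  · have hex : ∀ x y : Fin 4, ∃ m : Fin 4, m ≠ x ∧ m ≠ y := by decide
    obtain ⟨m, hm1, hm2⟩ := hex i i0
    subst hj0
    exact hr i m (some i0) hm1.symm hj (fun h => hm2 (Option.some.inj h).symm)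
      (hB i (some m) hi (fun h => hm1 (Option.some.inj h)) (fun h => hm2 (Option.some.inj h)))
  · exact hB i j hi hj hj0

end M

/-! job 25703 -/

section M

variable {K : Type} [Field K]

/-- a Heisenberg relation puts the commutator into the subgroup -/
theorem mem_of_rel {X : Type*} [Group X] (N : Subgroup X) (x y z : X)
    (h : x * y = y * (x * z)) (hx : x ∈ N) (hy : y ∈ N) : z ∈ N := by
  have hz : z = x⁻¹ * y⁻¹ * x * y := by
    have : x⁻¹ * y⁻¹ * (x * y) = x⁻¹ * y⁻¹ * (y * (x * z)) := by rw [h]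
    rw [mul_assoc (x⁻¹ * y⁻¹), this]
    group
  rw [hz]
  exact N.mul_mem (N.mul_mem (N.mul_mem (N.inv_mem hx) (N.inv_mem hy)) hx) hy

/-- the same when one of the two only normalizes the subgroup -/
theorem mem_of_rel_left {X : Type*} [Group X] (N : Subgroup X) (x y z : X)
    (h : x * y = y * (x * z)) (hx : x ∈ N) (hy : ∀ n ∈ N, y * n * y⁻¹ ∈ N)
    (hy' : ∀ n ∈ N, y⁻¹ * n * y ∈ N) : z ∈ N := by
  have hz : z = x⁻¹ * (y⁻¹ * x * y) := by
    have : x⁻¹ * y⁻¹ * (x * y) = x⁻¹ * y⁻¹ * (y * (x * z)) := by rw [h]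
    have h2 : x⁻¹ * (y⁻¹ * x * y) = x⁻¹ * y⁻¹ * (x * y) := by group
    rw [h2, this]
    group
  rw [hz]
  exact N.mul_mem (N.inv_mem hx) (hy' x hx)

theorem mem_of_rel_right {X : Type*} [Group X] (N : Subgroup X) (x y z : X)
    (h : x * y = y * (x * z)) (hy : y ∈ N) (hx : ∀ n ∈ N, x * n * x⁻¹ ∈ N)
    (hx' : ∀ n ∈ N, x⁻¹ * n * x ∈ N) : z ∈ N := by
  have hz : z = (x⁻¹ * y⁻¹ * x) * y := by
    have : x⁻¹ * y⁻¹ * (x * y) = x⁻¹ * y⁻¹ * (y * (x * z)) := by rw [h]
    have h2 : (x⁻¹ * y⁻¹ * x) * y = x⁻¹ * y⁻¹ * (x * y) := by group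
    rw [h2, this]
    group
  rw [hz]
  exact N.mul_mem (hx' _ (N.inv_mem hy)) hy

end M

/-! job 25704 -/

section M

variable {K : Type} [Field K]

theorem ln_mem (n : Fin 14) (t : K) : ln n t ∈ G K :=
  Subgroup.subset_closure ⟨n, t, rfl⟩

theorem ln_mem_Kg (n : Fin 14) (hn : (data n).2.2 = 1) (t : K) : ln n t ∈ Kg K :=
  Subgroup.subset_closure ⟨1, (G K).one_mem, n, hn, t, by simp⟩

theorem Kg_le : Kg K ≤ G K := by
  unfold Kg
  rw [Subgroup.closure_le]
  rintro x ⟨g, hg, n, _, t, rfl⟩
  exact (G K).mul_mem ((G K).mul_mem hg (ln_mem n t)) ((G K).inv_mem hg)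

theorem Kg_conj (g : Equiv.Perm (List (B K))) (hg : g ∈ G K) (x : Equiv.Perm (List (B K)))
    (hx : x ∈ Kg K) : g * x * g⁻¹ ∈ Kg K := by
  have h : Kg K ≤ (Kg K).comap (MulAut.conj g).toMonoidHom := by
    conv_lhs => unfold Kg
    rw [Subgroup.closure_le]
    rintro y ⟨g0, hg0, n, hn, t, rfl⟩
    show MulAut.conj g (g0 * ln n t * g0⁻¹) ∈ Kg K
    refine Subgroup.subset_closure ⟨g * g0, (G K).mul_mem hg hg0, n, hn, t, ?_⟩
    rw [MulAut.conj_apply]
    group
  have h2 := h hx
  exact h2

end M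

/-! job 25705 -/

section M

variable {K : Type} [Field K]

/-- all rooted moves -/
theorem R_mem_Kg (i : Fin 4) (j : Option (Fin 4)) (h : j ≠ some i) (t : K) :
    R i j t ∈ Kg K := by
  have hall := all_of_edges (fun i j => ∀ t : K, R i j t ∈ Kg K)
    (fun t => ln_mem_Kg (1 : Fin 14) rfl t)
    (fun t => ln_mem_Kg (5 : Fin 14) rfl t)
    (fun t => ln_mem_Kg (7 : Fin 14) rfl t)
    (fun t => ln_mem_Kg (9 : Fin 14) rfl t)
    (fun t => ln_mem_Kg (11 : Fin 14) rfl t)
    (fun t => ln_mem_Kg (13 : Fin 14) rfl t)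
    (by
      intro i m l him hli hlm h1 h2 t
      have h3 := mem_of_rel (Kg K) _ _ _ (RR_heis i m l him hli hlm t (1 : K)) (h1 t) (h2 1)
      rwa [mul_one] at h3)
  exact hall i j h t

theorem E_ln_393 (n : Fin 14) (hn : (data n).2.2 = 0) (t : K) :
    ln n t = E (data n).1 (data n).2.1 t := by
  unfold ln E
  congr 1
  funext h
  rw [hn]
  show t * one h = t
  simp [one]

/-- all constant moves -/
theorem E_mem (i : Fin 4) (j : Option (Fin 4)) (h : j ≠ some i) (t : K) :
    E i j t ∈ G K := by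
  have hall := all_of_edges (fun i j => ∀ t : K, E i j t ∈ G K)
    (fun t => E_ln_393 (0 : Fin 14) rfl t ▸ ln_mem (0 : Fin 14) t)
    (fun t => E_ln_393 (4 : Fin 14) rfl t ▸ ln_mem (4 : Fin 14) t)
    (fun t => E_ln_393 (6 : Fin 14) rfl t ▸ ln_mem (6 : Fin 14) t)
    (fun t => E_ln_393 (8 : Fin 14) rfl t ▸ ln_mem (8 : Fin 14) t)
    (fun t => E_ln_393 (10 : Fin 14) rfl t ▸ ln_mem (10 : Fin 14) t)
    (fun t => E_ln_393 (12 : Fin 14) rfl t ▸ ln_mem (12 : Fin 14) t)
    (by
      intro i m l him hli hlm h1 h2 t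
      have h3 := mem_of_rel (G K) _ _ _ (EE_heis i m l him hli hlm t (1 : K)) (h1 t) (h2 1)
      rwa [mul_one] at h3)
  exact hall i j h t

end M

/-! job 25706 -/

section M

variable {K : Type} [Field K]

theorem EFconst_mem (i : Fin 4) (j : Option (Fin 4)) (h : j ≠ some i) (t : K) :
    EF i j (fun _ => t) ∈ G K := by
  have e : EF i j (fun _ => t) = (R i j t)⁻¹ * E i j t := by
    rw [E_rec, inv_mul_cancel_left]
  rw [e]
  exact (G K).mul_mem ((G K).inv_mem (Kg_le (R_mem_Kg i j h t))) (E_mem i j h t)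

end M

end Pool.Agent.Helper278.TB
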