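import Mathlib
import Pool.Agent.Helper278.TB.Defs
import Pool.Agent.Helper278.TB.Tree
import Pool.Agent.Helper278.TB.Struct

set_option autoImplicit false
set_option linter.all false

namespace Pool.Agent.Helper278.TB

/-! job 25707 -/

section M

variable {K : Type} [Field K]

/-- the commutator of a rooted move of coordinate 3 with `ln 2` -/
theorem EF_coord (j : Fin 4) (hj : j ≠ 3) (t : K) :
    EF 0 (some 1) (fun v : B K => t * v j) ∈ Kg K := by
  have hj' : (some j : Option (Fin 4)) ≠ some 3 := fun h => hj (Option.some.inj h)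
  have hα : R 3 (some j) (-t) ∈ Kg K := R_mem_Kg 3 (some j) hj' (-t)
  have hmem : R 3 (some j) (-t) * (ln 2 1 * (R 3 (some j) (-t))⁻¹ * (ln 2 1)⁻¹) ∈ Kg K :=
    (Kg K).mul_mem hα (Kg_conj (ln 2 1) (ln_mem 2 1) _ ((Kg K).inv_mem hα))
  have hval : ∀ v : B K, ((elP 3 (some j) (-t))⁻¹ v) 3 = v 3 + t * v j := by
    intro v
    change el 3 (some j) (-(-t)) v 3 = v 3 + t * v j
    unfold el
    rw [if_neg hj', neg_neg, Function.update_self]
    rfl
  have h1 : R 3 (some j) (-t) * ln 2 1 * (R 3 (some j) (-t))⁻¹ =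
      Lam (fun v : B K => E 0 (some 1) (t * v j + v 3) * ln 2 1) := by
    conv_lhs => rw [ln2_rec]
    rw [R_eq, rho_conj]
    congr 1
    funext v
    rw [hval, one_mul, add_comm (v 3)]
  have h2 : (ln 2 1 : Equiv.Perm (List (B K))) = Lam (fun v : B K => E 0 (some 1) (v 3) * ln 2 1) := by
    conv_lhs => rw [ln2_rec]
    simp only [one_mul]
  have h3 : EF 0 (some 1) (fun v : B K => t * v j) =
      R 3 (some j) (-t) * (ln 2 1 * (R 3 (some j) (-t))⁻¹ * (ln 2 1)⁻¹) := by
    have h4 : R 3 (some j) (-t) * (ln 2 1 * (R 3 (some j) (-t))⁻¹ * (ln 2 1)⁻¹) =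
        (R 3 (some j) (-t) * ln 2 1 * (R 3 (some j) (-t))⁻¹) * (ln 2 1)⁻¹ := by
      group
    rw [h4, h1, eq_mul_inv_iff_mul_eq]
    conv_lhs =>
      rw [h2]
    unfold EF
    rw [← Lam_mul]
    congr 1
    funext v
    rw [← mul_assoc, ← E_add]
  rw [h3]
  exact hmem

end M

/-! job 25708 -/

section M

variable {K : Type} [Field K]

theorem RF_coord (j : Fin 4) (hj : j ≠ 3) (t : K) :
    RF 0 (some 1) (fun v : B K => t * v j) ∈ Kg K := by
  have hα : R 3 (some j) (-t) ∈ Kg K := R_mem_Kg 3 (some j) (fun h => hj (Option.some.inj h)) (-t)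
  have hL : ln 3 (1 : K) ∈ G K := ln_mem 3 1
  have hconj : ln 3 (1 : K) * (R 3 (some j) (-t))⁻¹ * (ln 3 (1 : K))⁻¹ ∈ Kg K :=
    Kg_conj _ hL _ (Subgroup.inv_mem _ hα)
  have hprod := Subgroup.mul_mem _ hα hconj
  have key : RF 0 (some 1) (fun v : B K => t * v j) =
      R 3 (some j) (-t) * (ln 3 (1 : K) * (R 3 (some j) (-t))⁻¹ * (ln 3 (1 : K))⁻¹) := by
    have h1 : R 3 (some j) (-t) * ln 3 (1 : K) * (R 3 (some j) (-t))⁻¹ =
        Lam (fun v : B K => R 0 (some 1) (1 * (v 3 + t * v j)) * ln 3 1) := by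
      conv_lhs => rw [ln3_rec, R_eq, rho_conj]
      congr 1
      funext v
      have h2 : ((elP 3 (some j) (-t))⁻¹ v : B K) 3 = v 3 + t * v j := by
        show el 3 (some j) (-(-t)) v 3 = _
        rw [neg_neg]
        unfold el
        rw [if_neg (fun h => hj (Option.some.inj h)), Function.update_self]
        rfl
      rw [h2]
    have h3 : (ln 3 (1 : K))⁻¹ = Lam (fun v : B K => (R 0 (some 1) (1 * v 3) * ln 3 1)⁻¹) := by
      rw [Lam_inv, ← ln3_rec]
    have h4 : R 3 (some j) (-t) * (ln 3 (1 : K) * (R 3 (some j) (-t))⁻¹ * (ln 3 (1 : K))⁻¹) =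
        (R 3 (some j) (-t) * ln 3 (1 : K) * (R 3 (some j) (-t))⁻¹) * (ln 3 (1 : K))⁻¹ := by
      group
    rw [h4, h1, h3, ← Lam_mul]
    unfold RF
    congr 1
    funext v
    have h5 : (1 : K) * (v 3 + t * v j) = t * v j + 1 * v 3 := by ring
    rw [h5, R_add]
    group
  rw [key]
  exact hprod

end M

/-! job 25709 -/

section M

variable {K : Type} [Field K]

theorem elP_inv_apply_h89 (k : Fin 4) (l : Option (Fin 4)) (t : K) (v : B K) :
    (elP k l (-t))⁻¹ v = el k l t v := by
  rw [Equiv.Perm.inv_eq_iff_eq]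
  exact (el_neg_el k l t v).symm

theorem Lam_comp_h89 (k : Fin 4) (l : Option (Fin 4)) (hk : l ≠ some k)
    (φ : B K → Equiv.Perm (List (B K))) (h : Lam φ ∈ Kg K) (t : K) :
    Lam (fun v => φ (el k l t v)) ∈ Kg K := by
  have h1 := Kg_conj (R k l (-t)) (Kg_le (R_mem_Kg k l hk (-t))) (Lam φ) h
  rw [R_eq, rho_conj] at h1
  have h2 : (fun v => φ ((elP k l (-t))⁻¹ v)) = (fun v => φ (el k l t v)) := by
    funext v
    rw [elP_inv_apply_h89]
  rw [h2] at h1
  exact h1

theorem EF_comp (i k : Fin 4) (j l : Option (Fin 4)) (hk : l ≠ some k) (f : B K → K)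
    (h : EF i j f ∈ Kg K) (t : K) : EF i j (fun v => f (el k l t v)) ∈ Kg K :=
  Lam_comp_h89 k l hk (fun v => E i j (f v)) h t

theorem RF_comp (i k : Fin 4) (j l : Option (Fin 4)) (hk : l ≠ some k) (f : B K → K)
    (h : RF i j f ∈ Kg K) (t : K) : RF i j (fun v => f (el k l t v)) ∈ Kg K :=
  Lam_comp_h89 k l hk (fun v => R i j (f v)) h t

end M

/-! job 25710 -/

section M

variable {K : Type} [Field K]

theorem EF_add (i : Fin 4) (j : Option (Fin 4)) (f g : B K → K) :
    EF i j (fun v => f v + g v) = EF i j f * EF i j g := by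
  have h : (fun v => E i j (f v + g v)) = fun v => E i j (f v) * E i j (g v) :=
    funext fun v => E_add i j (f v) (g v)
  show Lam (fun v => E i j (f v + g v)) = Lam (fun v => E i j (f v)) * Lam (fun v => E i j (g v))
  rw [h, Lam_mul]

theorem RF_add (i : Fin 4) (j : Option (Fin 4)) (f g : B K → K) :
    RF i j (fun v => f v + g v) = RF i j f * RF i j g := by
  have h : (fun v => R i j (f v + g v)) = fun v => R i j (f v) * R i j (g v) :=
    funext fun v => R_add i j (f v) (g v)
  show Lam (fun v => R i j (f v + g v)) = Lam (fun v => R i j (f v)) * Lam (fun v => R i j (g v))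
  rw [h, Lam_mul]

theorem EF_sub_mem (i : Fin 4) (j : Option (Fin 4)) (f g : B K → K)
    (hf : EF i j f ∈ Kg K) (hg : EF i j g ∈ Kg K) : EF i j (fun v => f v - g v) ∈ Kg K := by
  have h := EF_add i j (fun v => f v - g v) g
  simp only [sub_add_cancel] at h
  have h2 : EF i j (fun v => f v - g v) = EF i j f * (EF i j g)⁻¹ := by
    rw [eq_mul_inv_iff_mul_eq]
    exact h.symm
  rw [h2]
  exact (Kg K).mul_mem hf ((Kg K).inv_mem hg)

theorem RF_sub_mem (i : Fin 4) (j : Option (Fin 4)) (f g : B K → K)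
    (hf : RF i j f ∈ Kg K) (hg : RF i j g ∈ Kg K) : RF i j (fun v => f v - g v) ∈ Kg K := by
  have h := RF_add i j (fun v => f v - g v) g
  simp only [sub_add_cancel] at h
  have h2 : RF i j (fun v => f v - g v) = RF i j f * (RF i j g)⁻¹ := by
    rw [eq_mul_inv_iff_mul_eq]
    exact h.symm
  rw [h2]
  exact (Kg K).mul_mem hf ((Kg K).inv_mem hg)

end M

/-! job 25711 -/

section M

variable {K : Type} [Field K]

theorem el_at_zero979 (j : Option (Fin 4)) (hj : j ≠ some 0) (t : K) (v : B K) :
    el 0 j t v 0 = v 0 + t * cf j v := by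
  unfold el
  rw [if_neg hj, Function.update_self]

/-- the fourth coordinate -/
theorem EF_coord3 (t : K) : EF 0 (some 1) (fun v : B K => t * v 3) ∈ Kg K := by
  have h1 := EF_coord (K := K) 0 (by decide) t
  have h2 := EF_comp (K := K) 0 0 (some 1) (some 3) (by decide) _ h1 1
  have h3 := EF_sub_mem _ _ _ _ h2 h1
  have h4 : (fun v : B K => t * (el 0 (some 3) 1 v) 0 - t * v 0) = (fun v : B K => t * v 3) := by
    funext v
    rw [el_at_zero979 _ (by decide)]
    simp only [cf]
    ring
  rw [h4] at h3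
  exact h3

theorem EF_const01 (t : K) : EF 0 (some 1) (fun _ : B K => t) ∈ Kg K := by
  have h1 := EF_coord (K := K) 0 (by decide) 1
  have h2 := EF_comp (K := K) 0 0 (some 1) none (by decide) _ h1 t
  have h3 := EF_sub_mem _ _ _ _ h2 h1
  have h4 : (fun v : B K => 1 * (el 0 none t v) 0 - 1 * v 0) = (fun _ : B K => t) := by
    funext v
    rw [el_at_zero979 _ (by decide)]
    simp only [cf]
    ring
  rw [h4] at h3
  exact h3

theorem RF_const01 (t : K) : RF 0 (some 1) (fun _ : B K => t) ∈ Kg K := by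
  have h1 := RF_coord (K := K) 0 (by decide) 1
  have h2 := RF_comp (K := K) 0 0 (some 1) none (by decide) _ h1 t
  have h3 := RF_sub_mem _ _ _ _ h2 h1
  have h4 : (fun v : B K => 1 * (el 0 none t v) 0 - 1 * v 0) = (fun _ : B K => t) := by
    funext v
    rw [el_at_zero979 _ (by decide)]
    simp only [cf]
    ring
  rw [h4] at h3
  exact h3

end M

/-! job 25712 -/

section M

variable {K : Type} [Field K]

theorem EF_rel125 (i m : Fin 4) (l : Option (Fin 4)) (him : i ≠ m) (hli : l ≠ some i)
    (hlm : l ≠ some m) (f g : B K → K) :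
    EF i (some m) f * EF m l g = EF m l g * (EF i (some m) f * EF i l (fun v => f v * g v)) := by
  unfold EF
  rw [← Lam_mul, ← Lam_mul, ← Lam_mul]
  congr 1
  funext v
  exact EE_heis i m l him hli hlm (f v) (g v)

/-- change of the column -/
theorem EF_right (i m : Fin 4) (l : Option (Fin 4)) (him : i ≠ m) (hli : l ≠ some i)
    (hlm : l ≠ some m) (f : B K → K) (h : EF i (some m) f ∈ Kg K) : EF i l f ∈ Kg K := by
  have hrel := EF_rel125 i m l him hli hlm f (fun _ => 1)
  simp only [mul_one] at hrel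
  have hG : EF m l (fun _ => (1 : K)) ∈ G K := EFconst_mem m l hlm 1
  refine mem_of_rel_left (Kg K) _ _ _ hrel h (fun n hn => Kg_conj _ hG n hn) ?_
  intro n hn
  have h1 := Kg_conj _ (inv_mem hG) n hn
  rwa [inv_inv] at h1

/-- change of the row -/
theorem EF_left (i m : Fin 4) (l : Option (Fin 4)) (him : i ≠ m) (hli : l ≠ some i)
    (hlm : l ≠ some m) (f : B K → K) (h : EF m l f ∈ Kg K) : EF i l f ∈ Kg K := by
  have hrel := EF_rel125 i m l him hli hlm (fun _ => 1) f
  simp only [one_mul] at hrel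
  have hG : EF i (some m) (fun _ => (1 : K)) ∈ G K :=
    EFconst_mem i (some m) (fun e => him (Option.some.inj e).symm) 1
  refine mem_of_rel_right (Kg K) _ _ _ hrel h (fun n hn => Kg_conj _ hG n hn) ?_
  intro n hn
  have h1 := Kg_conj _ (inv_mem hG) n hn
  rwa [inv_inv] at h1

end M

/-! job 25713 -/

section M

variable {K : Type} [Field K]

theorem EF_mul01 (f g : B K → K) (hf : EF 0 (some 1) f ∈ Kg K) (hg : EF 0 (some 1) g ∈ Kg K) :
    EF 0 (some 1) (fun v => f v * g v) ∈ Kg K := by
  have h1 : EF 0 (some 2) f ∈ Kg K :=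
    EF_right 0 1 (some 2) (by decide) (by decide) (by decide) f hf
  have h2 : EF 2 (some 1) g ∈ Kg K :=
    EF_left 2 0 (some 1) (by decide) (by decide) (by decide) g hg
  refine mem_of_rel (Kg K) (EF 0 (some 2) f) (EF 2 (some 1) g) _ ?_ h1 h2
  unfold EF
  rw [← Lam_mul, ← Lam_mul, ← Lam_mul]
  congr 1
  funext v
  exact EE_heis 0 2 (some 1) (by decide) (by decide) (by decide) (f v) (g v)

end M

/-! job 25714 -/

section M

variable {K : Type} [Field K]

/-- all functions are polynomials -/
theorem all_functions [Fintype K] (P : (B K → K) → Prop) (hC : ∀ c : K, P (fun _ => c))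
    (hX : ∀ k : Fin 4, P (fun v => v k)) (ha : ∀ f g, P f → P g → P (fun v => f v + g v))
    (hm : ∀ f g, P f → P g → P (fun v => f v * g v)) (f : B K → K) : P f := by
  classical
  have key : ∀ p : MvPolynomial (Fin 4) K, P (fun v => MvPolynomial.eval v p) := by
    intro p
    induction p using MvPolynomial.induction_on with
    | C a => simpa using hC a
    | add p q hp hq => simpa using ha _ _ hp hq
    | mul_X p n hp => simpa using hm _ _ hp (hX n)
  have h := MvPolynomial.map_restrict_dom_evalₗ K (Fin 4)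
  have hf : f ∈ (MvPolynomial.restrictDegree (Fin 4) K (Fintype.card K - 1)).map
      (MvPolynomial.evalₗ K (Fin 4)) := by
    rw [h]; trivial
  obtain ⟨p, _, hp⟩ := hf
  have := key p
  have e : (fun v => MvPolynomial.eval v p) = f := by
    rw [← hp]
    rfl
  rwa [e] at this

end M

/-! job 25715 -/

section M

variable {K : Type} [Field K]

theorem EF_mem_aux288 [Fintype K] (f : B K → K) : EF 0 (some 1) f ∈ Kg K := by
  refine all_functions (fun f => EF 0 (some 1) f ∈ Kg K) (fun c => EF_const01 c) (fun k => ?_)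
    (fun f g hf hg => ?_) (fun f g hf hg => EF_mul01 f g hf hg) f
  · change EF 0 (some 1) (fun v : B K => v k) ∈ Kg K
    by_cases hk : k = 3
    · have h := EF_coord3 (K := K) 1
      have e : (fun v : B K => (1 : K) * v 3) = fun v : B K => v k := by
        funext v
        rw [one_mul, hk]
      rw [e] at h
      exact h
    · have h := EF_coord (K := K) k hk 1
      have e : (fun v : B K => (1 : K) * v k) = fun v : B K => v k := by
        funext v
        rw [one_mul]
      rw [e] at h
      exact h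
  · change EF 0 (some 1) (fun v => f v + g v) ∈ Kg K
    rw [EF_add]
    exact mul_mem hf hg

theorem EF_mem [Fintype K] (i : Fin 4) (j : Option (Fin 4)) (h : j ≠ some i) (f : B K → K) :
    EF i j f ∈ Kg K := by
  have key := all_of_moves (fun i j => ∀ f : B K → K, EF i j f ∈ Kg K) 0 1 (by decide)
    (fun f => EF_mem_aux288 f)
    (fun i m l him hli hlm hq f => EF_right i m l him hli hlm f (hq f))
    (fun i m l him hli hlm hq f => EF_left i m l him hli hlm f (hq f))
  exact key i j h f

theorem atE_mem [Fintype K] (b : B K) (i : Fin 4) (j : Option (Fin 4)) (h : j ≠ some i) (t : K) :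
    at' b (E i j t) ∈ Kg K := by
  classical
  have h1 := EF_mem i j h (fun v : B K => if v = b then t else 0)
  have e : EF i j (fun v : B K => if v = b then t else 0) = at' b (E i j t) := by
    unfold EF at'
    congr 1
    funext v
    by_cases hv : v = b
    · rw [if_pos hv]
      change E i j (if v = b then t else 0) = _
      rw [if_pos hv]
    · rw [if_neg hv]
      change E i j (if v = b then t else 0) = _
      rw [if_neg hv, E_zero]
  rw [e] at h1
  exact h1

end M

/-! job 25716 -/

section M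

variable {K : Type} [Field K]

theorem atR_step1_481 [Fintype K] (b : B K) (c : K) :
    at' b (R 0 (some 2) c) ∈ Kg K := by
  refine mem_of_rel (Kg K) (RF 0 (some 1) (fun _ => c)) (at' b (E 1 (some 2) 1)) _ ?_
    (RF_const01 c) (atE_mem b 1 (some 2) (by decide) 1)
  unfold RF at'
  rw [← Lam_mul, ← Lam_mul, ← Lam_mul]
  congr 1
  funext v
  by_cases hv : v = b
  · simp only [if_pos hv]
    have h := RE_heis (K := K) 0 1 (some 2) (by decide) (by decide) (by decide) c 1
    rw [mul_one] at h
    exact h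
  · simp only [if_neg hv, mul_one, one_mul]

theorem atR_mem [Fintype K] (b : B K) (i : Fin 4) (j : Option (Fin 4)) (h : j ≠ some i) (t : K) :
    at' b (R i j t) ∈ Kg K := by
  refine all_of_moves (fun i j => ∀ t : K, at' b (R i j t) ∈ Kg K) 0 2 (by decide)
    (atR_step1_481 b) ?_ ?_ i j h t
  · intro i m l him hli hlm hQ t
    have h1 := congrArg (at' b) (RE_heis (K := K) i m l him hli hlm t 1)
    rw [at'_mul, at'_mul, at'_mul, mul_one] at h1
    exact mem_of_rel (Kg K) _ _ _ h1 (hQ t) (atE_mem b m l hlm 1)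
  · intro i m l him hli hlm hQ t
    have h1 := congrArg (at' b) (ER_heis (K := K) i m l him hli hlm 1 t)
    rw [at'_mul, at'_mul, at'_mul, one_mul] at h1
    exact mem_of_rel (Kg K) _ _ _ h1
      (atE_mem b i (some m) (fun e => him (Option.some.inj e).symm) 1) (hQ t)

end M

/-! job 25717 -/

section M

variable {K : Type} [Field K]

theorem lnE866 (n : Fin 14) (h : (data n).2.2 = 0) (t : K) :
    ln n t = (E (data n).1 (data n).2.1 t : Equiv.Perm (List (B K))) := by
  unfold ln E
  rw [h]
  congr 1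
  funext x
  show t * 1 = t
  rw [mul_one]

theorem lnR866 (n : Fin 14) (h : (data n).2.2 = 1) (t : K) :
    ln n t = (R (data n).1 (data n).2.1 t : Equiv.Perm (List (B K))) := by
  unfold ln R
  rw [h]
  rfl

theorem lnd866 : ∀ n : Fin 14, (data n).2.1 ≠ some (data n).1 := by decide

theorem lnc866 : ∀ n : Fin 14, (data n).2.2 = 0 ∨ (data n).2.2 = 1 ∨ n = 2 ∨ n = 3 := by decide

/-- the line in terms of `E`, `R` -/
theorem ln_cases (n : Fin 14) (t : K) :
    (∃ i j, j ≠ some i ∧ ln n t = (E i j t : Equiv.Perm (List (B K)))) ∨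
      (∃ i j, j ≠ some i ∧ ln n t = (R i j t : Equiv.Perm (List (B K)))) ∨
        n = 2 ∨ n = 3 := by
  rcases lnc866 n with h | h | h | h
  · exact Or.inl ⟨_, _, lnd866 n, lnE866 n h t⟩
  · exact Or.inr (Or.inl ⟨_, _, lnd866 n, lnR866 n h t⟩)
  · exact Or.inr (Or.inr (Or.inl h))
  · exact Or.inr (Or.inr (Or.inr h))

end M

end Pool.Agent.Helper278.TB
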