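import Mathlib
import Pool.Agent.Helper278.TB.Defs
import Pool.Agent.Helper278.TB.Tree
import Pool.Agent.Helper278.TB.Struct
import Pool.Agent.Helper278.TB.Mem

set_option autoImplicit false
set_option linter.all false

namespace Pool.Agent.Helper278.TB

/-! job 25718 -/

section M

variable {K : Type} [Field K]

theorem selfrep_aux_373 (b : B K) (L F F' : Equiv.Perm (List (B K)))
    (g' : Equiv.Perm (List (B K))) (hL : ∀ w, g' (b :: w) = b :: (F * L) w)
    (hc : L * F' = F' * L) (hF : F * F' = 1) (w : List (B K)) :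
    (g' * at' b F') (b :: w) = b :: L w := by
  rw [Equiv.Perm.mul_apply, at'_apply, hL]
  have h : (F * L) (F' w) = (F * (L * F')) w := rfl
  rw [h, hc, ← mul_assoc, hF, one_mul]

/-- the group is self-replicating -/
theorem selfrep [Fintype K] (g : Equiv.Perm (List (B K))) (hg : g ∈ G K) (b : B K) :
    ∃ g' ∈ G K, ∀ w, g' (b :: w) = b :: g w := by
  induction hg using Subgroup.closure_induction with
  | mem g hg =>
    obtain ⟨n, t, rfl⟩ := hg
    rcases ln_cases n t with ⟨i, j, hij, h⟩ | ⟨i, j, hij, h⟩ | rfl | rfl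
    · refine ⟨at' b (E i j t), Kg_le (atE_mem b i j hij t), fun w => ?_⟩
      rw [at'_apply, h]
    · refine ⟨at' b (R i j t), Kg_le (atR_mem b i j hij t), fun w => ?_⟩
      rw [at'_apply, h]
    · refine ⟨ln 2 t * at' b (E 0 (some 1) (-(t * b 3))), (G K).mul_mem (ln_mem 2 t)
        (Kg_le (atE_mem b 0 (some 1) (by decide) _)), fun w => ?_⟩
      refine selfrep_aux_373 b (ln 2 t) (E 0 (some 1) (t * b 3)) _ (ln 2 t) (fun w => ?_)
        (ln2_comm_E t _) ?_ w
      · conv_lhs => rw [ln2_rec]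
        rw [Lam_cons]
      · rw [← E_add, add_neg_cancel, E_zero]
    · refine ⟨ln 3 t * at' b (R 0 (some 1) (-(t * b 3))), (G K).mul_mem (ln_mem 3 t)
        (Kg_le (atR_mem b 0 (some 1) (by decide) _)), fun w => ?_⟩
      refine selfrep_aux_373 b (ln 3 t) (R 0 (some 1) (t * b 3)) _ (ln 3 t) (fun w => ?_)
        (ln3_comm_R t _) ?_ w
      · conv_lhs => rw [ln3_rec]
        rw [Lam_cons]
      · rw [← R_add, add_neg_cancel, R_zero]
  | one => exact ⟨1, (G K).one_mem, fun w => rfl⟩
  | mul x y _ _ hx hy =>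
    obtain ⟨x', hx', hxw⟩ := hx
    obtain ⟨y', hy', hyw⟩ := hy
    refine ⟨x' * y', (G K).mul_mem hx' hy', fun w => ?_⟩
    rw [Equiv.Perm.mul_apply, hyw, hxw]
    rfl
  | inv x _ hx =>
    obtain ⟨x', hx', hxw⟩ := hx
    refine ⟨x'⁻¹, (G K).inv_mem hx', fun w => ?_⟩
    rw [Equiv.Perm.inv_eq_iff_eq, hxw]
    congr 1
    exact (Equiv.apply_symm_apply x w).symm


end M

/-! job 25719 -/

section M

variable {K : Type} [Field K]

theorem ln_inv_h81 (n : Fin 14) (t : K) : (ln n t)⁻¹ = ln n (-t) := by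
  have h0 : ln n (0 : K) = 1 := by
    have := ln_add n (0 : K) 0
    rw [add_zero] at this
    exact (mul_eq_left.mp this.symm)
  have h1 := ln_add n t (-t)
  rw [add_neg_cancel, h0] at h1
  exact inv_eq_of_mul_eq_one_right h1.symm

theorem ln_sec_h81 (n : Fin 14) (t : K) (b : B K) :
    ∃ b' : B K, ∃ s ∈ G K, ∀ w, ln n t (b :: w) = b' :: s w := by
  rcases ln_cases n t with ⟨i, j, hij, h⟩ | ⟨i, j, hij, h⟩ | rfl | rfl
  · refine ⟨elP i j t b, E i j t, E_mem i j hij t, fun w => ?_⟩
    rw [h]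
    conv_lhs => rw [E_rec]
    rw [Equiv.Perm.mul_apply, EF, Lam_cons, R_eq, rho_cons]
  · refine ⟨elP i j t b, 1, one_mem _, fun w => ?_⟩
    rw [h, R_eq, rho_cons]
    rfl
  · refine ⟨b, E 0 (some 1) (t * b 3) * ln 2 t, mul_mem (E_mem _ _ (by decide) _) (ln_mem _ _), fun w => ?_⟩
    conv_lhs => rw [ln2_rec, Lam_cons]
  · refine ⟨b, R 0 (some 1) (t * b 3) * ln 3 t,
      mul_mem (Kg_le (R_mem_Kg _ _ (by decide) _)) (ln_mem _ _), fun w => ?_⟩
    conv_lhs => rw [ln3_rec, Lam_cons]

theorem G_ind_h81 (p : Equiv.Perm (List (B K)) → Prop) (h1 : ∀ n t, p (ln n t)) (h2 : p 1)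
    (h3 : ∀ x y, p x → p y → p (x * y)) (g : Equiv.Perm (List (B K))) (hg : g ∈ G K) : p g := by
  unfold G at hg
  induction hg using Subgroup.closure_induction'' with
  | mem x hx => obtain ⟨n, t, rfl⟩ := hx; exact h1 n t
  | inv_mem x hx => obtain ⟨n, t, rfl⟩ := hx; rw [ln_inv_h81]; exact h1 n _
  | one => exact h2
  | mul x y _ _ hx hy => exact h3 x y hx hy

/-- the sections at the first level -/
theorem sec1 (g : Equiv.Perm (List (B K))) (hg : g ∈ G K) (b : B K) :
    ∃ b' : B K, ∃ s ∈ G K, ∀ w, g (b :: w) = b' :: s w := by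
  refine G_ind_h81 (fun g => ∀ b, ∃ b' : B K, ∃ s ∈ G K, ∀ w, g (b :: w) = b' :: s w)
    (fun n t b => ln_sec_h81 n t b) (fun b => ⟨b, 1, one_mem _, fun w => rfl⟩) ?_ g hg b
  intro x y hx hy b
  obtain ⟨b', s, hs, h1⟩ := hy b
  obtain ⟨b'', s', hs', h2⟩ := hx b'
  refine ⟨b'', s' * s, mul_mem hs' hs, fun w => ?_⟩
  rw [Equiv.Perm.mul_apply, h1, h2]
  rfl

theorem G_nil (g : Equiv.Perm (List (B K))) (hg : g ∈ G K) : g [] = [] := by
  refine G_ind_h81 (fun g => g [] = []) (fun n t => rfl) rfl ?_ g hg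
  intro x y hx hy
  rw [Equiv.Perm.mul_apply, hy, hx]

end M

/-! job 25720 -/

section M

variable {K : Type} [Field K]

/-- conjugation of `at'` -/
theorem at'_conj (g g' : Equiv.Perm (List (B K))) (hg' : g' ∈ G K) (b : B K)
    (h : ∀ w, g' (b :: w) = b :: g w) (x : Equiv.Perm (List (B K))) :
    at' b (g * x * g⁻¹) = g' * at' b x * g'⁻¹ := by
  have hinv : g'⁻¹ ∈ G K := (G K).inv_mem hg'
  apply Equiv.ext
  intro u
  rw [Equiv.Perm.mul_apply, Equiv.Perm.mul_apply]
  cases u with
  | nil =>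
    have h1 : at' b (g * x * g⁻¹) [] = [] := rfl
    have h2 : at' b x [] = [] := rfl
    rw [h1, G_nil _ hinv, h2, G_nil _ hg']
  | cons v w =>
    by_cases hv : v = b
    · subst hv
      have h1 : g'⁻¹ (v :: w) = v :: g⁻¹ w := by
        rw [Equiv.Perm.inv_eq_iff_eq, h]; exact congrArg _ (g.apply_symm_apply w).symm
      rw [h1, at'_apply, at'_apply, h]
      rfl
    · rw [at'_apply_ne b v hv]
      obtain ⟨v', s, -, hs⟩ := sec1 g'⁻¹ hinv v
      have h1 : g'⁻¹ (v :: w) = v' :: s w := hs w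
      have h2 : g' (v' :: s w) = v :: w := by
        rw [← h1]; exact g'.apply_symm_apply _
      have hv' : v' ≠ b := by
        intro e
        rw [e, h] at h2
        have := (List.cons.inj h2).1
        exact hv this.symm
      rw [h1, at'_apply_ne b v' hv', h2]

end M

/-! job 25721 -/

section M

variable {K : Type} [Field K]

theorem data_ne_836 : ∀ n : Fin 14, (data n).2.1 ≠ some (data n).1 := by
  decide

theorem ln_eq_836 (n : Fin 14) (hn : (data n).2.2 = 1) (t : K) :
    ln n t = R (data n).1 (data n).2.1 t := by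
  unfold ln R
  rw [hn]
  rfl

theorem at'_mem [Fintype K] (b : B K) (x : Equiv.Perm (List (B K))) (hx : x ∈ Kg K) :
    at' b x ∈ Kg K := by
  unfold Kg at hx
  induction hx using Subgroup.closure_induction with
  | mem x hx =>
    obtain ⟨g, hg, n, hn, t, rfl⟩ := hx
    obtain ⟨g', hg', h⟩ := selfrep g hg b
    rw [at'_conj g g' hg' b h, ln_eq_836 n hn]
    exact Kg_conj g' hg' _ (atR_mem b _ _ (data_ne_836 n) t)
  | one =>
    rw [at'_one]
    exact (Kg K).one_mem
  | mul x y _ _ hx hy =>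
    rw [at'_mul]
    exact (Kg K).mul_mem hx hy
  | inv x _ hx =>
    rw [at'_inv]
    exact (Kg K).inv_mem hx

end M

/-! job 25722 -/

section M

variable {K : Type} [Field K]

theorem ln_zero_372 (n : Fin 14) : ln n 0 = (1 : Equiv.Perm (List (B K))) := by
  have h := ln_add (K := K) n 0 0
  rw [add_zero] at h
  exact (mul_eq_left.mp h.symm)

theorem ln_inv_372 (n : Fin 14) (t : K) : (ln n t)⁻¹ = (ln n (-t) : Equiv.Perm (List (B K))) := by
  rw [inv_eq_iff_mul_eq_one, ← ln_add, add_neg_cancel, ln_zero_372]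

theorem step_372 [Fintype K] (n : Fin 14) (a : K) (y : Equiv.Perm (List (B K)))
    (hy : ∃ k ∈ Kg K, ∃ s t : K, y = k * ln 2 s * ln 3 t) :
    ∃ k ∈ Kg K, ∃ s t : K, ln n a * y = k * ln 2 s * ln 3 t := by
  obtain ⟨k, hk, s, t, rfl⟩ := hy
  have hKg : (ln n a : Equiv.Perm (List (B K))) ∈ Kg K ∨ n = 2 ∨ n = 3 := by
    rcases ln_cases n a with ⟨i, j, hj, e⟩ | ⟨i, j, hj, e⟩ | h
    · left
      rw [e, E_rec]
      exact (Kg K).mul_mem (R_mem_Kg i j hj a) (EF_mem i j hj _)
    · left
      rw [e]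
      exact R_mem_Kg i j hj a
    · right
      exact h
  rcases hKg with h | rfl | rfl
  · exact ⟨ln n a * k, (Kg K).mul_mem h hk, s, t, by simp only [mul_assoc]⟩
  · refine ⟨ln 2 a * k * (ln 2 a)⁻¹, Kg_conj _ (ln_mem 2 a) k hk, a + s, t, ?_⟩
    rw [ln_add]
    group
  · refine ⟨ln 3 a * k * (ln 3 a)⁻¹, Kg_conj _ (ln_mem 3 a) k hk, s, a + t, ?_⟩
    have h1 : ln 2 s * ln 3 (a + t) = ln 3 a * ln 2 s * (ln 3 t : Equiv.Perm (List (B K))) := by
      rw [ln3_comm_ln2, ln_add, mul_assoc]
    rw [mul_assoc _ (ln 2 s) (ln 3 (a + t)), h1]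
    group

/-- every element of the group is `k * ln 2 s * ln 3 t` -/
theorem decomp [Fintype K] (g : Equiv.Perm (List (B K))) (hg : g ∈ G K) :
    ∃ k ∈ Kg K, ∃ s t : K, g = k * ln 2 s * ln 3 t := by
  rw [G] at hg
  induction hg using Subgroup.closure_induction_left with
  | one => exact ⟨1, (Kg K).one_mem, 0, 0, by simp [ln_zero_372]⟩
  | mul_left x hx y _ ih =>
    obtain ⟨n, a, rfl⟩ := hx
    exact step_372 n a y ih
  | inv_mul_cancel x hx y _ ih =>
    obtain ⟨n, a, rfl⟩ := hx
    rw [ln_inv_372]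
    exact step_372 n (-a) y ih

end M

/-! job 25723 -/

section N

variable {K : Type} [Field K]

theorem T_length_610 (i : Fin 4) (j : Option (Fin 4)) (c : List (B K) → K) (w : List (B K)) :
    (T i j c w).length = w.length := by
  induction w generalizing c with
  | nil => rfl
  | cons v w ih => simp only [T, List.length_cons, ih]

theorem T_dropLast_610 (i : Fin 4) (j : Option (Fin 4)) (c : List (B K) → K) (w : List (B K)) :
    (T i j c w).dropLast = T i j c w.dropLast := by
  induction w generalizing c with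
  | nil => rfl
  | cons v w ih =>
    cases w with
    | nil => rfl
    | cons v' w' =>
      have h := ih (fun h => c (v :: h))
      simp only [T, List.dropLast_cons₂] at h ⊢
      rw [h]

theorem G_length (g : Equiv.Perm (List (B K))) (hg : g ∈ G K) (w : List (B K)) :
    (g w).length = w.length := by
  unfold G at hg
  induction hg using Subgroup.closure_induction generalizing w with
  | mem x hx =>
    obtain ⟨n, t, rfl⟩ := hx
    exact T_length_610 _ _ _ w
  | one => rfl
  | mul x y _ _ hx hy => rw [Equiv.Perm.mul_apply, hx, hy]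
  | inv x _ hx =>
    have h := hx (x⁻¹ w)
    have h2 : x (x⁻¹ w) = w := Equiv.apply_symm_apply x w
    rw [h2] at h
    exact h.symm

theorem G_dropLast (g : Equiv.Perm (List (B K))) (hg : g ∈ G K) (w : List (B K)) :
    (g w).dropLast = g w.dropLast := by
  unfold G at hg
  induction hg using Subgroup.closure_induction generalizing w with
  | mem x hx =>
    obtain ⟨n, t, rfl⟩ := hx
    exact T_dropLast_610 _ _ _ w
  | one => rfl
  | mul x y _ _ hx hy => rw [Equiv.Perm.mul_apply, hx, hy, Equiv.Perm.mul_apply]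
  | inv x _ hx =>
    have h := hx (x⁻¹ w)
    have h2 : x (x⁻¹ w) = w := Equiv.apply_symm_apply x w
    rw [h2] at h
    rw [h]
    exact (Equiv.symm_apply_apply x _).symm


end N

/-! job 25724 -/

section N

variable {K : Type} [Field K]

/-- sections at all words -/
theorem sec (g : Equiv.Perm (List (B K))) (hg : g ∈ G K) (u : List (B K)) :
    ∃ s ∈ G K, ∀ w, g (u ++ w) = g u ++ s w := by
  induction u generalizing g with
  | nil =>
    refine ⟨g, hg, fun w => ?_⟩
    rw [G_nil g hg]; simp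
  | cons b u ih =>
    obtain ⟨b', s, hs, h⟩ := sec1 g hg b
    obtain ⟨s', hs', h'⟩ := ih s hs
    refine ⟨s', hs', fun w => ?_⟩
    rw [List.cons_append, h, h', h u, List.cons_append]


end N

/-! job 25725 -/

section N

variable {K : Type} [Field K]

theorem root_step_522 (k : Fin 4) (t : K) (b : B K) (w : List (B K)) :
    R k none t (b :: w) = Function.update b k (b k + t) :: w := by
  rw [R_eq, rho_cons]
  congr 1
  show el k none t b = _
  simp [el, cf]

theorem root_mem_522 (k : Fin 4) (t : K) : R k none t ∈ G K :=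
  Kg_le (R_mem_Kg k none (by simp) t)

/-- rooted transitivity -/
theorem root_trans (b b' : B K) : ∃ g ∈ G K, ∀ w, g (b :: w) = b' :: w := by
  refine ⟨R 3 none (b' 3 - b 3) * (R 2 none (b' 2 - b 2) *
    (R 1 none (b' 1 - b 1) * R 0 none (b' 0 - b 0))), ?_, ?_⟩
  · exact (G K).mul_mem (root_mem_522 _ _) ((G K).mul_mem (root_mem_522 _ _)
      ((G K).mul_mem (root_mem_522 _ _) (root_mem_522 _ _)))
  · intro w
    simp only [Equiv.Perm.mul_apply, root_step_522]
    congr 1
    funext k
    fin_cases k <;> simp [Function.update]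

end N

/-! job 25726 -/

section N

variable {K : Type} [Field K]

theorem level_trans [Fintype K] (u u' : List (B K)) (h : u.length = u'.length) :
    ∃ g ∈ G K, g u = u' := by
  induction u generalizing u' with
  | nil =>
    have : u' = [] := List.length_eq_zero_iff.mp (by simpa using h.symm)
    subst this
    exact ⟨1, (G K).one_mem, rfl⟩
  | cons b w ih =>
    cases u' with
    | nil => simp at h
    | cons b' w' =>
      obtain ⟨g, hg, hgw⟩ := ih w' (by simpa using h)
      obtain ⟨g', hg', hs⟩ := selfrep g hg b'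
      obtain ⟨a, ha, hb⟩ := root_trans (K := K) b b'
      refine ⟨g' * a, (G K).mul_mem hg' ha, ?_⟩
      rw [Equiv.Perm.mul_apply, hb, hs, hgw]

end N

end Pool.Agent.Helper278.TB
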