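import Mathlib
import Pool.Agent.Helper278.TB.Defs
import Pool.Agent.Helper278.TB.Tree
import Pool.Agent.Helper278.TB.Struct
import Pool.Agent.Helper278.TB.Mem
import Pool.Agent.Helper278.TB.Rep

set_option autoImplicit false
set_option linter.all false

namespace Pool.Agent.Helper278.TB

section N0

variable {K : Type} [Field K]

/-- `x` below the word `u` -/
noncomputable def atw : List (B K) → Equiv.Perm (List (B K)) → Equiv.Perm (List (B K))
  | [], x => x
  | b :: u, x => at' b (atw u x)

/-- the rigid level stabilizer -/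
def RL (n : ℕ) : Subgroup (G K) :=
  Subgroup.closure {g : G K | ∃ v : List (B K), v.length = n ∧
    ∀ u : List (B K), ¬ v <+: u → (g : Equiv.Perm (List (B K))) u = u}

end N0

/-! job 25727 -/

section N

variable {K : Type} [Field K]

theorem atw_mem [Fintype K] (u : List (B K)) (x : Equiv.Perm (List (B K))) (hx : x ∈ Kg K) :
    atw u x ∈ Kg K := by
  induction u with
  | nil => exact hx
  | cons b u ih => exact at'_mem b _ ih

theorem atw_apply (u : List (B K)) (x : Equiv.Perm (List (B K))) (w : List (B K)) :
    atw u x (u ++ w) = u ++ x w := by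
  induction u with
  | nil => rfl
  | cons b u ih =>
    change at' b (atw u x) (b :: (u ++ w)) = b :: (u ++ x w)
    rw [at'_apply, ih]

theorem atw_apply_of (u : List (B K)) (x : Equiv.Perm (List (B K))) (w : List (B K))
    (h : ¬ u <+: w) : atw u x w = w := by
  induction u generalizing w with
  | nil => exact absurd List.nil_prefix h
  | cons b u ih =>
    cases w with
    | nil => rfl
    | cons v w =>
      change at' b (atw u x) (v :: w) = v :: w
      by_cases hv : v = b
      · subst hv
        rw [at'_apply, ih w]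
        intro hp
        exact h (List.cons_prefix_cons.2 ⟨rfl, hp⟩)
      · exact at'_apply_ne b v hv _ _

end N

/-! job 25728 -/

section N

variable {K : Type} [Field K]

theorem atw_mem_RL [Fintype K] (u : List (B K)) (x : Equiv.Perm (List (B K))) (hx : x ∈ Kg K) :
    (⟨atw u x, Kg_le (atw_mem u x hx)⟩ : G K) ∈ (RL u.length : Subgroup (G K)) :=
  Subgroup.subset_closure ⟨u, rfl, fun w h => atw_apply_of u x w h⟩

end N

/-! job 25729 -/

section N

variable {K : Type} [Field K]

theorem mem_RL_aux492 [Fintype K] (n : ℕ) (S : Finset (List (B K))) :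
    (∀ v ∈ S, v.length = n) → ∀ g : G K,
      (∀ v : List (B K), v.length = n → v ∉ S → ∀ w,
        (g : Equiv.Perm (List (B K))) (v ++ w) = v ++ w) →
      (∀ v ∈ S, ∃ k ∈ Kg K, ∀ w, (g : Equiv.Perm (List (B K))) (v ++ w) = v ++ k w) →
      g ∈ (RL n : Subgroup (G K)) := by
  classical
  induction S using Finset.induction_on with
  | empty =>
    intro _ g hg _
    have h1 : g = 1 := by
      apply Subtype.ext
      ext1 u
      show (g : Equiv.Perm (List (B K))) u = u
      rcases le_total n u.length with hu | hu
      · have h2 := hg (u.take n) (by rw [List.length_take]; omega) (by simp) (u.drop n)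
        rwa [List.take_append_drop] at h2
      · obtain ⟨s, hs, hsec⟩ := sec (g : Equiv.Perm (List (B K))) g.2 u
        have h2 := hg (u ++ List.replicate (n - u.length) (0 : B K))
          (by rw [List.length_append, List.length_replicate]; omega) (by simp) []
        rw [List.append_nil, hsec] at h2
        exact (List.append_inj h2 (G_length _ g.2 u)).1
    rw [h1]
    exact Subgroup.one_mem _
  | insert v S hv ih =>
    intro hlen g hg hS
    obtain ⟨k, hk, hgk⟩ := hS v (Finset.mem_insert_self _ _)
    have hvn : v.length = n := hlen v (Finset.mem_insert_self _ _)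
    set x : G K := ⟨atw v k, Kg_le (atw_mem v k hk)⟩ with hx
    have hxRL : x ∈ (RL n : Subgroup (G K)) := by
      have := atw_mem_RL v k hk
      rw [hvn] at this
      exact this
    have hxi : ∀ u, ((x⁻¹ : G K) : Equiv.Perm (List (B K))) u = (atw v k).symm u := fun u => rfl
    have hne : ∀ u : List (B K), u.length = n → u ≠ v → ∀ w, ¬ v <+: u ++ w := by
      intro u hu huv w hpre
      obtain ⟨t, ht⟩ := hpre
      exact huv (List.append_inj ht (by rw [hvn, hu])).1.symm
    have hfix : ∀ u : List (B K), u.length = n → u ≠ v → ∀ w,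
        (atw v k).symm (u ++ w) = u ++ w := by
      intro u hu huv w
      rw [Equiv.symm_apply_eq]
      exact (atw_apply_of v k _ (hne u hu huv w)).symm
    have hmul : ∀ u, ((g * x⁻¹ : G K) : Equiv.Perm (List (B K))) u =
        (g : Equiv.Perm (List (B K))) ((atw v k).symm u) := fun u => rfl
    have hg' : g * x⁻¹ ∈ (RL n : Subgroup (G K)) := by
      apply ih (fun u hu => hlen u (Finset.mem_insert_of_mem hu))
      · intro u hu huS w
        rw [hmul]
        by_cases huv : u = v
        · subst huv
          have h3 : (atw u k).symm (u ++ w) = u ++ k.symm w := by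
            rw [Equiv.symm_apply_eq, atw_apply, Equiv.apply_symm_apply]
          rw [h3, hgk, Equiv.apply_symm_apply]
        · rw [hfix u hu huv w]
          exact hg u hu (by simp [huv, huS]) w
      · intro u huS
        have hu : u.length = n := hlen u (Finset.mem_insert_of_mem huS)
        have huv : u ≠ v := fun e => hv (e ▸ huS)
        obtain ⟨k', hk', hgk'⟩ := hS u (Finset.mem_insert_of_mem huS)
        refine ⟨k', hk', fun w => ?_⟩
        rw [hmul, hfix u hu huv w, hgk']
    have h5 := Subgroup.mul_mem _ hg' hxRL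
    rwa [inv_mul_cancel_right] at h5

/-- an element with all level `n` sections in `Kg` lies in the rigid level stabilizer -/
theorem mem_RL [Fintype K] (n : ℕ) (g : G K)
    (h : ∀ v : List (B K), v.length = n → ∃ k ∈ Kg K, ∀ w,
      (g : Equiv.Perm (List (B K))) (v ++ w) = v ++ k w) :
    g ∈ (RL n : Subgroup (G K)) := by
  classical
  have hfin : {v : List (B K) | v.length = n}.Finite := List.finite_length_eq (B K) n
  apply mem_RL_aux492 n hfin.toFinset
  · intro v hv
    simpa using hv
  · intro v hv hv'
    exact absurd (by simpa using hv) hv'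
  · intro v hv
    exact h v (by simpa using hv)

end N

/-! job 25730 -/

section N

variable {K : Type} [Field K]

theorem Kg_index [Fintype K] : ((Kg K).subgroupOf (G K)).FiniteIndex := by
  classical
  have hmem : ∀ p : K × K, ln 2 p.1 * ln 3 p.2 ∈ G K := fun p =>
    (G K).mul_mem (ln_mem _ _) (ln_mem _ _)
  have hs : Function.Surjective (fun p : K × K =>
      (QuotientGroup.mk ⟨ln 2 p.1 * ln 3 p.2, hmem p⟩ : (G K) ⧸ (Kg K).subgroupOf (G K))) := by
    intro q
    induction q using QuotientGroup.induction_on with
    | H g =>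
      obtain ⟨k, hk, s, t, hg⟩ := decomp g.1 g.2
      refine ⟨(s, t), ?_⟩
      change (QuotientGroup.mk ⟨ln 2 s * ln 3 t, hmem (s, t)⟩ :
        (G K) ⧸ (Kg K).subgroupOf (G K)) = QuotientGroup.mk g
      rw [QuotientGroup.eq, Subgroup.mem_subgroupOf]
      have h1 := Kg_conj (ln 2 s * ln 3 t)⁻¹ ((G K).inv_mem (hmem (s, t))) k hk
      have h2 : (((⟨ln 2 s * ln 3 t, hmem (s, t)⟩ : G K)⁻¹ * g : G K) :
          Equiv.Perm (List (B K))) = (ln 2 s * ln 3 t)⁻¹ * k * ((ln 2 s * ln 3 t)⁻¹)⁻¹ := by
        rw [Subgroup.coe_mul, Subgroup.coe_inv, hg, inv_inv]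
        group
      rw [h2]
      exact h1
  have hfin : Finite ((G K) ⧸ (Kg K).subgroupOf (G K)) := Finite.of_surjective _ hs
  exact Subgroup.finiteIndex_of_finite_quotient

end N

/-! job 25731 -/

section N

variable {K : Type} [Field K]

theorem RL_key849 [Fintype K] (n : ℕ) (g h : G K) (s t : List (B K) → G K)
    (hs : ∀ v w, (g : Equiv.Perm (List (B K))) (v ++ w) =
      (g : Equiv.Perm (List (B K))) v ++ (s v : Equiv.Perm (List (B K))) w)
    (ht : ∀ v w, (h : Equiv.Perm (List (B K))) (v ++ w) =
      (h : Equiv.Perm (List (B K))) v ++ (t v : Equiv.Perm (List (B K))) w)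
    (h1 : ∀ v : List (B K), v.length = n →
      (g : Equiv.Perm (List (B K))) v = (h : Equiv.Perm (List (B K))) v)
    (h2 : ∀ v : List (B K), v.length = n → (s v)⁻¹ * t v ∈ (Kg K).subgroupOf (G K)) :
    g⁻¹ * h ∈ (RL n : Subgroup (G K)) := by
  apply mem_RL
  intro v hv
  have hk := h2 v hv
  rw [Subgroup.mem_subgroupOf] at hk
  refine ⟨_, hk, fun w => ?_⟩
  show (g : Equiv.Perm (List (B K)))⁻¹ ((h : Equiv.Perm (List (B K))) (v ++ w)) =
    v ++ (s v : Equiv.Perm (List (B K)))⁻¹ ((t v : Equiv.Perm (List (B K))) w)
  rw [Equiv.Perm.inv_eq_iff_eq, hs, ht, h1 v hv]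
  congr 1
  exact (Equiv.apply_symm_apply (s v : Equiv.Perm (List (B K))) _).symm

theorem RL_index [Fintype K] (n : ℕ) : (RL n : Subgroup (G K)).FiniteIndex := by
  classical
  have hchoose : ∀ g : G K, ∃ s : List (B K) → G K, ∀ v w,
      (g : Equiv.Perm (List (B K))) (v ++ w) =
      (g : Equiv.Perm (List (B K))) v ++ (s v : Equiv.Perm (List (B K))) w := by
    intro g
    have := fun v => sec (g : Equiv.Perm (List (B K))) g.2 v
    choose s hs1 hs2 using this
    exact ⟨fun v => ⟨s v, hs1 v⟩, fun v w => hs2 v w⟩
  choose s hs using hchoose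
  have hfi := Kg_index (K := K)
  have hfin1 : Finite (G K ⧸ (Kg K).subgroupOf (G K)) := inferInstance
  have hfin2 : Finite {v : List (B K) // v.length = n} :=
    (List.finite_length_eq (B K) n).to_subtype
  let F : G K → ({v : List (B K) // v.length = n} →
      {v : List (B K) // v.length = n} × (G K ⧸ (Kg K).subgroupOf (G K))) :=
    fun g v => (⟨(g : Equiv.Perm (List (B K))) v.1, by
      rw [G_length _ g.2]; exact v.2⟩, QuotientGroup.mk (s g v.1))
  have hF : ∀ g h : G K, F g = F h → g⁻¹ * h ∈ (RL n : Subgroup (G K)) := by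
    intro g h hgh
    refine RL_key849 n g h (s g) (s h) (hs g) (hs h) ?_ ?_
    · intro v hv
      have h1 := congrFun hgh ⟨v, hv⟩
      exact congrArg Subtype.val (Prod.mk.inj h1).1
    · intro v hv
      have h1 := congrFun hgh ⟨v, hv⟩
      exact QuotientGroup.eq.1 (Prod.mk.inj h1).2
  have hfinQ : Finite (G K ⧸ (RL n : Subgroup (G K))) := by
    refine Finite.of_injective (fun q => F (Quotient.out q)) ?_
    intro q q' hqq
    have h1 := hF _ _ hqq
    rw [← QuotientGroup.eq] at h1
    have e1 : (QuotientGroup.mk (Quotient.out q) : G K ⧸ (RL n : Subgroup (G K))) = q :=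
      Quotient.out_eq' q
    have e2 : (QuotientGroup.mk (Quotient.out q') : G K ⧸ (RL n : Subgroup (G K))) = q' :=
      Quotient.out_eq' q'
    rw [← e1, ← e2]
    exact h1
  exact Subgroup.finiteIndex_of_finite_quotient

end N

end Pool.Agent.Helper278.TB
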