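import Mathlib
import Pool.Agent.Helper278.TB.Rist
import Pool.Agent.Helper278.TB.PropT

set_option autoImplicit false

namespace Pool.Agent.Helper278.TB

theorem iter_dropLast {α : Type} (k : ℕ) (w : List α) :
    List.dropLast^[k] w = w.take (w.length - k) := by
  induction k generalizing w with
  | zero => simp
  | succ k ih =>
    rw [Function.iterate_succ_apply, ih, List.dropLast_eq_take, List.take_take, List.length_take]
    congr 1
    omega

theorem level_iff {α : Type} (n : ℕ) (v : List α) :
    (List.dropLast^[n] v = [] ∧ ∀ k < n, List.dropLast^[k] v ≠ []) ↔ v.length = n := by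
  constructor
  · rintro ⟨h1, h2⟩
    rw [iter_dropLast, List.take_eq_nil_iff] at h1
    rcases Nat.lt_or_ge v.length n with h | h
    · exfalso
      apply h2 v.length h
      rw [iter_dropLast]
      simp
    · rcases h1 with h1 | h1
      · omega
      · subst h1; simp only [List.length_nil] at h ⊢; omega
  · rintro rfl
    refine ⟨by rw [iter_dropLast]; simp, fun k hk => ?_⟩
    rw [iter_dropLast, Ne, List.take_eq_nil_iff]
    rintro (h | h)
    · omega
    · subst h; simp at hk

theorem desc_iff {α : Type} (u v : List α) :
    (∀ k : ℕ, List.dropLast^[k] u ≠ v) ↔ ¬ v <+: u := by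
  constructor
  · intro h hp
    apply h (u.length - v.length)
    rw [iter_dropLast]
    have h1 : u.length - (u.length - v.length) = v.length := by
      have := hp.length_le
      omega
    rw [h1]
    exact (List.prefix_iff_eq_take.mp hp).symm
  · intro h k hk
    apply h
    rw [← hk, iter_dropLast]
    exact List.take_prefix _ _

end Pool.Agent.Helper278.TB
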